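import Pool.Agent.K3h58.MOID.Count

/-!
# Identities for the distance between a circle and a confocal ellipse

The eccentric anomaly is `t`; `r` is the distance to the common focus divided by the semi-major
axis, and `w` is the square of the norm of the projection to the plane of the circle (helper58).
-/

set_option autoImplicit false

namespace Pool.Agent.K3h58.MOID

open Set Real

/-- Parameters: eccentricity `e`, `b = √(1-e²)`, squared sine `m` of the mutual inclination and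
the unit vector `(S, C)` which gives the direction of the normal. -/
structure Par where
  (e b m S C : ℝ)
  he0 : 0 < e
  he1 : e < 1
  hb0 : 0 < b
  hb2 : b ^ 2 = 1 - e ^ 2
  hm0 : 0 ≤ m
  hm1 : m ≤ 1
  hS0 : 0 ≤ S
  hC0 : 0 ≤ C
  hSC : S ^ 2 + C ^ 2 = 1

namespace Par

variable (P : Par)

/-- Distance to the focus. -/
noncomputable def r (t : ℝ) : ℝ := 1 - P.e * cos t
/-- First rotated coordinate in the plane of the ellipse. -/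
noncomputable def X (t : ℝ) : ℝ := P.C * (cos t - P.e) - P.S * P.b * sin t
/-- Second rotated coordinate in the plane of the ellipse. -/
noncomputable def Y (t : ℝ) : ℝ := P.S * (cos t - P.e) + P.C * P.b * sin t
/-- Derivative of `X`. -/
noncomputable def X1 (t : ℝ) : ℝ := - P.C * sin t - P.S * P.b * cos t
/-- Derivative of `Y`. -/
noncomputable def Y1 (t : ℝ) : ℝ := - P.S * sin t + P.C * P.b * cos t
/-- Second derivative of `Y`. -/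
noncomputable def Y2 (t : ℝ) : ℝ := - P.S * cos t - P.C * P.b * sin t
/-- Squared norm of the projection. -/
noncomputable def w (t : ℝ) : ℝ := P.r t ^ 2 - P.m * P.Y t ^ 2
/-- Half of the derivative of `w`. -/
noncomputable def w1 (t : ℝ) : ℝ := P.e * sin t * P.r t - P.m * P.Y t * P.Y1 t
/-- Derivative of `w1`. -/
noncomputable def w2 (t : ℝ) : ℝ :=
  P.e * cos t * P.r t + P.e ^ 2 * sin t ^ 2 - P.m * (P.Y1 t ^ 2 + P.Y t * P.Y2 t)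
/-- Numerator of the derivative of `Θ`. -/
noncomputable def F (t : ℝ) : ℝ :=
  (1 - P.m) * P.b ^ 2 * P.r t ^ 3 * sin t + P.m * P.b * cos t * P.X t * P.Y t * P.w t
    - (1 + P.e * cos t) * sin t * P.w t ^ 2
/-- Numerator of the derivative of `F / (r³ sin³)`. -/
noncomputable def V (t : ℝ) : ℝ :=
  P.e * sin t ^ 3 * P.Y t ^ 2
    + P.S * P.r t ^ 2 * (P.b * cos t * P.X t + (1 + P.e * cos t) * sin t * P.Y t)
/-- The level function. -/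
noncomputable def Θ (t : ℝ) : ℝ := P.w1 t / √(P.w t) / (P.e * sin t * P.r t)

/-! ### Relations -/

theorem hxy (t : ℝ) : cos t ^ 2 + sin t ^ 2 = 1 := cos_sq_add_sin_sq t

theorem h1 (t : ℝ) : P.e * cos t = 1 - P.r t := by simp only [r]; ring
theorem h2 (t : ℝ) : P.e * sin t ^ 2 = P.e - cos t + cos t * P.r t := by
  simp only [r]; linear_combination P.e * hxy t
theorem h3 : P.e ^ 2 = 1 - P.b ^ 2 := by linear_combination P.hb2
theorem h4 (t : ℝ) : cos t ^ 2 = 1 - sin t ^ 2 := by linear_combination hxy t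
theorem h6 (t : ℝ) : P.b ^ 2 * cos t = cos t - P.e + P.e * P.r t := by
  simp only [r]; linear_combination cos t * P.hb2
theorem hX2 (t : ℝ) : P.X t ^ 2 = P.r t ^ 2 - P.Y t ^ 2 := by
  simp only [r, X, Y]
  linear_combination (P.b ^ 2 * sin t ^ 2 - 2 * P.e * cos t + P.e ^ 2 + cos t ^ 2) * P.hSC
    + sin t ^ 2 * P.hb2 + (-P.e ^ 2 + 1) * hxy t
theorem hX1 (t : ℝ) : P.X1 t * P.r t = P.e * sin t * P.X t - P.b * P.Y t := by
  simp only [r, X, Y, X1]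
  linear_combination (P.C * sin t) * P.hb2 + (P.S * P.b * P.e) * hxy t
theorem hY1 (t : ℝ) : P.Y1 t * P.r t = P.e * sin t * P.Y t + P.b * P.X t := by
  simp only [r, X, Y, Y1]
  linear_combination (P.S * sin t) * P.hb2 - (P.C * P.b * P.e) * hxy t
theorem hY2 (t : ℝ) : P.Y2 t * P.r t ^ 2
    = P.e * cos t * P.r t * P.Y t + P.b * P.e * sin t * P.X t - P.b ^ 2 * P.Y t := by
  simp only [r, X, Y, Y2]
  linear_combination (P.S * P.e * sin t ^ 2 + P.C * P.b * sin t - P.S * P.e + P.S * cos t) * P.hb2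
    + (-P.S * P.e ^ 3 + P.S * P.e) * hxy t
theorem hS (t : ℝ) : P.S * P.r t ^ 2 = (cos t - P.e) * P.Y t - P.b * sin t * P.X t := by
  simp only [r, X, Y]
  linear_combination (-P.S * sin t ^ 2) * P.hb2 + (P.S * P.e ^ 2 - P.S) * hxy t
theorem hC (t : ℝ) : P.C * P.r t ^ 2 = (cos t - P.e) * P.X t + P.b * sin t * P.Y t := by
  simp only [r, X, Y]
  linear_combination (-P.C * sin t ^ 2) * P.hb2 + (P.C * P.e ^ 2 - P.C) * hxy t

theorem r_pos (t : ℝ) : 0 < P.r t := by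
  have := cos_le_one t
  simp only [r]; nlinarith [P.he0, P.he1]

/-! ### The four identities -/

theorem alg1 {e b m x y r X Y w Y1 Y2 : ℝ} (hw : w = r ^ 2 - m * Y ^ 2)
    (h1 : e * x = 1 - r) (h2 : e * y ^ 2 = e - x + x * r) (h3 : e ^ 2 = 1 - b ^ 2)
    (hX2 : X ^ 2 = r ^ 2 - Y ^ 2) (hY1 : Y1 * r = e * y * Y + b * X)
    (hY2 : Y2 * r ^ 2 = e * x * r * Y + b * e * y * X - b ^ 2 * Y) :
    ((e * x * r + e ^ 2 * y ^ 2 - m * (Y1 ^ 2 + Y * Y2)) * y * r * w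
      - (e * y * r - m * Y * Y1) * (x * r * w + e * y ^ 2 * w + y * r * (e * y * r - m * Y * Y1))
      - ((1 - m) * b ^ 2 * r ^ 3 * y + m * b * x * X * Y * w - (1 + e * x) * y * w ^ 2)) * r ^ 2
      = 0 := by
  linear_combination (-Y*m*r*w*y) * hY2
    + (-Y^3*e*m^2*r*y^2-X*Y^2*b*m^2*r*y+2*Y*e*m*r^3*y^2-Y^2*Y1*m^2*r^2*y-X*b*m*r*w*y
        +Y*m*r^2*w*x-Y1*m*r^2*w*y) * hY1
    + (-2*X*Y*b*e*m*r*y^2-Y^2*e*m*r^2*x*y-X^2*b^2*m*r*y+Y^2*b^2*m*r*y+e*r^4*x*y-Y^2*m*r^2*y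
        +e*r^2*w*x*y+r^4*y+r^2*w*y) * hw
    + (-b^2*m*r^3*y) * hX2
    + (Y^4*m^2*r*y-2*Y^2*m*r^3*y+r^5*y) * h1
    + (-Y^4*e*m^2*r*y+2*Y^2*e*m*r^3*y-e*r^5*y) * h2
    + (-Y^4*m^2*r*y+2*Y^2*m*r^3*y-r^5*y) * h3

/-- First identity. -/
theorem id1 (t : ℝ) : P.w2 t * sin t * P.r t * P.w t
    - P.w1 t * (cos t * P.r t * P.w t + P.e * sin t ^ 2 * P.w t + sin t * P.r t * P.w1 t)
    = P.F t := by
  have h := alg1 (m := P.m) (w := P.w t) rfl (P.h1 t) (P.h2 t) P.h3 (P.hX2 t) (P.hY1 t) (P.hY2 t)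
  have hr := (P.r_pos t).ne'
  rcases mul_eq_zero.1 h with h | h
  · simp only [w2, w1, F]; linear_combination h
  · exact absurd h (pow_ne_zero _ hr)

/-- Second identity. -/
theorem id2 (t : ℝ) :
    ((1 - P.m) * P.b ^ 2 * (3 * P.r t ^ 2 * (P.e * sin t) * sin t + P.r t ^ 3 * cos t)
      + P.m * P.b * (- sin t * P.X t * P.Y t * P.w t + cos t * P.X1 t * P.Y t * P.w t
        + cos t * P.X t * P.Y1 t * P.w t + cos t * P.X t * P.Y t * (2 * P.w1 t))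
      - ((- P.e * sin t) * sin t * P.w t ^ 2 + (1 + P.e * cos t) * cos t * P.w t ^ 2
        + (1 + P.e * cos t) * sin t * 2 * P.w t * (2 * P.w1 t))) * P.r t * sin t
      - 3 * P.F t * (P.e * sin t ^ 2 + cos t * P.r t)
      = - 3 * P.m * P.w t * P.V t := by
  have hw : P.w t = P.r t ^ 2 - P.m * P.Y t ^ 2 := rfl
  simp only [V, F, w1]
  have h1 := P.h1 t; have h2 := P.h2 t; have h4 := h4 t; have h6 := P.h6 t
  have hX2 := P.hX2 t; have hY1 := P.hY1 t; have hX1 := P.hX1 t; have hS := P.hS t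
  generalize P.w t = w at *
  generalize P.r t = r at *
  generalize P.X t = X at *
  generalize P.Y t = Y at *
  generalize P.X1 t = X1 at *
  generalize P.Y1 t = Y1 at *
  generalize cos t = x at *
  generalize sin t = y at *
  generalize P.S = S at *
  generalize P.e = e at *
  generalize P.b = b at *
  generalize P.m = m at *
  linear_combination (-2*X*Y^2*b*m^2*x*y+4*Y*e*m*w*x*y^2+X*b*m*w*x*y+4*Y*m*w*y^2) * hY1
    + (Y*b*m*w*x*y) * hX1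
    + (3*Y*e*m*w*x*y+3*X*b*m*w*x+3*Y*m*w*y) * hS
    + (Y^2*e^2*m*x*y^3-2*Y^2*e*m*r*x^2*y-Y^2*e*m*r*y^3-e^2*r^2*x*y^3-3*X*Y*b*m*r*x^2-X*Y*b*m*r*y^2
        -2*X^2*b^2*m*x*y-Y^2*b^2*m*x*y+3*Y^2*e*m*x^2*y+4*Y^2*e*m*y^3-3*Y^2*e^2*m*x*y+2*e*r^3*x^2*y
        +e*r^3*y^3+3*e^2*w*x*y^3-3*X*Y*b*e*m*x+3*X*Y*b*m*x^2+X*Y*b*m*y^2-2*Y^2*m*r*x*y
        +2*e*r*w*x^2*y+e*r*w*y^3-e*r^2*y^3-3*Y^2*e*m*y+3*Y^2*m*x*y+3*e*w*y^3+2*r^3*x*y
        +2*r*w*x*y) * hw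
    + (-2*b^2*m*r^2*x*y) * hX2
    + (-Y^4*e*m^2*y^3-2*X*Y^3*b*m^2*y^2+2*Y^2*e*m*r^2*y^3+2*Y^4*m^2*r*x*y+2*X*Y*b*m*r^2*y^2
        -4*Y^2*m*r^3*x*y+3*Y^4*e*m^2*y-3*Y^4*m^2*x*y-e*r^4*y^3+3*X*Y^3*b*m^2-3*Y^2*e*m*r^2*y
        +3*Y^2*m*r^2*x*y+2*r^5*x*y-3*X*Y*b*m*r^2) * h1
    + (2*Y^4*m^2*r*y-4*Y^2*m*r^3*y-5*Y^4*m^2*y+7*Y^2*m*r^2*y+2*r^5*y-2*r^4*y) * h2
    + (3*X*Y^3*b*m^2*r-3*X*Y*b*m*r^3-3*X*Y^3*b*m^2+3*X*Y*b*m*r^2) * h4
    + (Y^4*m^2*y+Y^2*m*r^2*y-2*r^4*y) * h6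

/-- Fourth identity. -/
theorem id4 (t : ℝ) : P.F t = -(P.e ^ 2 * P.r t ^ 3 * sin t ^ 3
    + P.m * P.r t ^ 3 * sin t * P.Y1 t ^ 2
    - P.m * P.e * sin t ^ 2 * P.Y t * P.Y1 t * (3 * P.r t ^ 2 - P.m * P.Y t ^ 2)
    - P.m * P.C * P.b * P.r t * P.Y t * P.w t) := by
  have hw : P.w t = P.r t ^ 2 - P.m * P.Y t ^ 2 := rfl
  have hr := (P.r_pos t).ne'
  have h1 := P.h1 t; have h2 := P.h2 t; have h3 := P.h3
  have hX2 := P.hX2 t; have hY1 := P.hY1 t; have hC := P.hC t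
  apply mul_right_cancel₀ (pow_ne_zero 2 hr)
  simp only [F]
  generalize P.w t = w at *
  generalize P.r t = r at *
  generalize P.X t = X at *
  generalize P.Y t = Y at *
  generalize P.Y1 t = Y1 at *
  generalize cos t = x at *
  generalize sin t = y at *
  generalize P.C = C at *
  generalize P.e = e at *
  generalize P.b = b at *
  generalize P.m = m at *
  linear_combination (-Y*b*m*r*w) * hC
    + (Y^3*e*m^2*r*y^2-2*Y*e*m*r^3*y^2+X*b*m*r^3*y+Y1*m*r^4*y) * hY1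
    + (Y^2*e*m*r^2*x*y+X*Y*b*m*r^2*x-Y^2*b^2*m*r*y-e*r^4*x*y+X*Y*b*e*m*r-X*Y*b*m*r*x
        +Y^2*m*r^2*y-e*r^2*w*x*y-r^4*y-r^2*w*y) * hw
    + (b^2*m*r^3*y) * hX2
    + (-Y^4*m^2*r*y+2*Y^2*m*r^3*y-r^5*y) * h1
    + (Y^4*e*m^2*r*y+X*Y^3*b*m^2*r-2*Y^2*e*m*r^3*y-X*Y*b*m*r^3+e*r^5*y) * h2
    + (Y^4*m^2*r*y-2*Y^2*m*r^3*y+r^5*y) * h3

/-- Third identity. -/
theorem id3 (t : ℝ) : P.V t = P.b * (2 * P.S * P.C * (1 / 2 - P.e ^ 2
    + 5 / 2 * P.e ^ 2 * cos t ^ 2 - 5 / 2 * P.e * cos t ^ 3 + (P.e - P.e ^ 3 / 2) * cos t ^ 5)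
    + (P.C ^ 2 - P.S ^ 2) * P.e * P.b * sin t ^ 5) := by
  simp only [V, r, X, Y]
  have hSC := P.hSC; have hb := P.hb2; have hxy := hxy t
  generalize cos t = x at *
  generalize sin t = y at *
  generalize P.S = S at *
  generalize P.C = C at *
  generalize P.e = e at *
  generalize P.b = b at *
  linear_combination (b^2*e*y^5-b^2*e^2*x^3*y+e^3*x^4*y-e^4*x^3*y+2*b^2*e*x^2*y+e*x^2*y^3
      -2*e^2*x*y^3-e^2*x^3*y+e^3*x^2*y+e^3*y^3-b^2*x*y-e*x^2*y+e^2*x*y-e*y+x*y) * hSC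
    + (-C^2*e*y^5+C^2*e^2*x^3*y-2*C^2*e*x^2*y+e*y^5-e^2*x^3*y+C^2*x*y+2*e*x^2*y-x*y) * hb
    + (C*S*b*e^3*x^3-C^2*e^3*x^2*y+C^2*e^3*y^3+2*C*S*b*e*x*y^2-2*C*S*b*e*x^3+C*S*b*e^2*x^2
        -2*C*S*b*e^2*y^2-C^2*e*y^3+2*C^2*e^2*x*y+e^3*x^2*y-e^3*y^3+C*S*b*e*x-2*C*S*b*e^2
        -C^2*e*y+e*y^3-2*e^2*x*y+C*S*b+e*y) * hxy

end Par

end Pool.Agent.K3h58.MOID
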