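import Mathlib

/-!
# Counting zeros with Rolle's theorem

Elementary counting lemmas used for the stationary points of the distance between a circle and a
confocal ellipse (helper58).
-/

set_option autoImplicit false

namespace Pool.Agent.K3h58.MOID

open Set

/-- If strictly between any two points of `A` there is a point of `B`, then `A` has at most one
element more than `B`. -/
theorem encard_le_of_between {A B : Set ℝ}
    (h : ∀ x ∈ A, ∀ y ∈ A, x < y → ∃ z ∈ B, x < z ∧ z < y) : A.encard ≤ B.encard + 1 := by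
  classical
  rcases B.finite_or_infinite with hB | hB
  · set Bf := hB.toFinset with hBf
    let c : ℝ → ℕ := fun x => (Bf.filter (· < x)).card
    have hlt : ∀ x ∈ A, ∀ y ∈ A, x < y → c x < c y := by
      intro x hx y hy hxy
      obtain ⟨z, hz, h1, h2⟩ := h x hx y hy hxy
      apply Finset.card_lt_card
      rw [Finset.ssubset_iff_of_subset]
      · exact ⟨z, by simp [hBf, hz, h2], by simp [h1.le]⟩
      · intro t ht
        simp only [Finset.mem_filter] at ht ⊢
        exact ⟨ht.1, ht.2.trans hxy⟩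
    have hinj : InjOn c A := by
      intro x hx y hy hxy
      by_contra hne
      rcases lt_or_gt_of_ne hne with h1 | h1
      · exact absurd hxy (hlt x hx y hy h1).ne
      · exact absurd hxy (hlt y hy x hx h1).ne'
    have hmaps : c '' A ⊆ (↑(Finset.range (Bf.card + 1)) : Set ℕ) := by
      rintro _ ⟨x, hx, rfl⟩
      simp only [Finset.coe_range, mem_Iio]
      exact Nat.lt_succ_of_le (Finset.card_le_card (Finset.filter_subset _ _))
    calc A.encard = (c '' A).encard := (hinj.encard_image).symm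
      _ ≤ ((Finset.range (Bf.card + 1) : Finset ℕ) : Set ℕ).encard := encard_le_encard hmaps
      _ = B.encard + 1 := by
        rw [Set.encard_coe_eq_coe_finsetCard, Finset.card_range]
        have : B.encard = Bf.card := by
          rw [← Set.encard_coe_eq_coe_finsetCard, hBf, Set.Finite.coe_toFinset]
        rw [this]; push_cast; rfl
  · rw [hB.encard_eq]; simp

/-- Rolle: a function has at most one more zero than its derivative. -/
theorem encard_zeros_le {a b : ℝ} {g g' : ℝ → ℝ}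
    (hd : ∀ x ∈ Ioo a b, HasDerivAt g (g' x) x) :
    {x | x ∈ Ioo a b ∧ g x = 0}.encard ≤ {x | x ∈ Ioo a b ∧ g' x = 0}.encard + 1 := by
  apply encard_le_of_between
  rintro x ⟨hx, hgx⟩ y ⟨hy, hgy⟩ hxy
  have hsub : Icc x y ⊆ Ioo a b := fun t ht => ⟨hx.1.trans_le ht.1, ht.2.trans_lt hy.2⟩
  obtain ⟨c, hc, hc'⟩ := exists_hasDerivAt_eq_zero hxy
    (fun t ht => (hd t (hsub ht)).continuousAt.continuousWithinAt) (hgx.trans hgy.symm)
    (fun t ht => hd t (hsub (Ioo_subset_Icc_self ht)))
  exact ⟨c, ⟨hsub (Ioo_subset_Icc_self hc), hc'⟩, hc.1, hc.2⟩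

/-- The number of points with `|g| = τ` is at most one more than the number of zeros of
`g` or of `g'`. -/
theorem encard_level_le {a b τ : ℝ} (hτ : 0 < τ) {g g' : ℝ → ℝ}
    (hd : ∀ x ∈ Ioo a b, HasDerivAt g (g' x) x) :
    {x | x ∈ Ioo a b ∧ |g x| = τ}.encard ≤
      {x | x ∈ Ioo a b ∧ (g x = 0 ∨ g' x = 0)}.encard + 1 := by
  apply encard_le_of_between
  rintro x ⟨hx, hgx⟩ y ⟨hy, hgy⟩ hxy
  have hsub : Icc x y ⊆ Ioo a b := fun t ht => ⟨hx.1.trans_le ht.1, ht.2.trans_lt hy.2⟩
  have hcont : ContinuousOn g (Icc x y) :=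
    fun t ht => (hd t (hsub ht)).continuousAt.continuousWithinAt
  by_cases heq : g x = g y
  · obtain ⟨c, hc, hc'⟩ := exists_hasDerivAt_eq_zero hxy hcont heq
      (fun t ht => hd t (hsub (Ioo_subset_Icc_self ht)))
    exact ⟨c, ⟨hsub (Ioo_subset_Icc_self hc), Or.inr hc'⟩, hc.1, hc.2⟩
  · have hopp : (g x < 0 ∧ 0 < g y) ∨ (0 < g x ∧ g y < 0) := by
      rcases (abs_eq hτ.le).1 hgx with h1 | h1 <;> rcases (abs_eq hτ.le).1 hgy with h2 | h2
      · exact absurd (h1.trans h2.symm) heq
      · right; constructor <;> linarith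
      · left; constructor <;> linarith
      · exact absurd (h1.trans h2.symm) heq
    rcases hopp with ⟨h1, h2⟩ | ⟨h1, h2⟩
    · obtain ⟨c, hc, hc'⟩ := intermediate_value_Ioo hxy.le hcont (show (0:ℝ) ∈ Ioo _ _ from ⟨h1, h2⟩)
      exact ⟨c, ⟨hsub (Ioo_subset_Icc_self hc), Or.inl hc'⟩, hc.1, hc.2⟩
    · obtain ⟨c, hc, hc'⟩ := intermediate_value_Ioo' hxy.le hcont (show (0:ℝ) ∈ Ioo _ _ from ⟨h2, h1⟩)
      exact ⟨c, ⟨hsub (Ioo_subset_Icc_self hc), Or.inl hc'⟩, hc.1, hc.2⟩

/-- If `g' < 0` at every zero of `g`, then `g` has at most one zero. -/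
theorem subsingleton_zeros {a b : ℝ} {g g' : ℝ → ℝ}
    (hd : ∀ x ∈ Ioo a b, HasDerivAt g (g' x) x)
    (hn : ∀ x ∈ Ioo a b, g x = 0 → g' x < 0) :
    {x | x ∈ Ioo a b ∧ g x = 0}.encard ≤ 1 := by
  have key : ∀ x ∈ Ioo a b, ∀ y ∈ Ioo a b, g x = 0 → g y = 0 → ¬ x < y := by
    intro x hx y hy hgx hgy hxy
    have hsub : Icc x y ⊆ Ioo a b := fun t ht => ⟨hx.1.trans_le ht.1, ht.2.trans_lt hy.2⟩
    have hle : ∀ t ∈ Icc x y, g t ≤ 0 := by
      intro t ht
      have := image_le_of_deriv_right_lt_deriv_boundary (f := g) (f' := g') (a := x) (b := y)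
        (B := fun _ => 0) (B' := fun _ => 0)
        (fun t ht => (hd t (hsub ht)).continuousAt.continuousWithinAt)
        (fun t ht => (hd t (hsub (Ico_subset_Icc_self ht))).hasDerivWithinAt)
        hgx.le (fun t => hasDerivAt_const t (0:ℝ))
        (fun t ht h0 => hn t (hsub (Ico_subset_Icc_self ht)) h0) ht
      simpa using this
    have h1 := hd y hy
    have h2 := hn y hy hgy
    -- to the left of y the function is positive
    have h3 : ∀ᶠ t in nhdsWithin y (Iio y), 0 < g t := by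
      have hslope := hasDerivAt_iff_tendsto_slope.1 h1
      have hev : ∀ᶠ t in nhdsWithin y {y}ᶜ, slope g y t < 0 := hslope.eventually_lt_const h2
      have hev' : ∀ᶠ t in nhdsWithin y (Iio y), slope g y t < 0 :=
        hev.filter_mono (nhdsWithin_mono y (fun t ht => (mem_Iio.1 ht).ne))
      filter_upwards [hev', self_mem_nhdsWithin] with t ht hty
      have hty' : t - y < 0 := sub_neg.2 hty
      rw [slope_def_field, hgy, sub_zero] at ht
      have := (div_neg_iff.1 ht)
      rcases this with ⟨h, _⟩ | ⟨_, h⟩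
      · exact h
      · linarith
    have h4 : ∀ᶠ t in nhdsWithin y (Iio y), t ∈ Icc x y := by
      have : Ioo x y ∈ nhdsWithin y (Iio y) := Ioo_mem_nhdsLT hxy
      exact Filter.mem_of_superset this Ioo_subset_Icc_self
    obtain ⟨t, ht1, ht2⟩ := (h3.and h4).exists
    exact absurd (hle t ht2) (not_le.2 ht1)
  rw [Set.encard_le_one_iff]
  rintro x y ⟨hx, hgx⟩ ⟨hy, hgy⟩
  by_contra hne
  rcases lt_or_gt_of_ne hne with h | h
  · exact key x hx y hy hgx hgy h
  · exact key y hy x hx hgy hgx h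

/-- A trigonometric polynomial of degree two that does not vanish at `0` has at most four
zeros in `(-π, π)`. -/
theorem encard_trig_two {q : ℝ → ℝ} {A B C D G : ℝ}
    (hq : ∀ t, q t = A + B * Real.cos t + C * Real.sin t + D * Real.cos t * Real.sin t
      + G * Real.cos t ^ 2) (h0 : q 0 ≠ 0) :
    {t | t ∈ Ioo (-Real.pi) Real.pi ∧ q t = 0}.encard ≤ 4 := by
  classical
  open Polynomial in
  let p : ℝ[X] := Polynomial.C (A + B + G) + Polynomial.C (2 * C + 2 * D) * X
    + Polynomial.C (2 * A - 2 * G) * X ^ 2 + Polynomial.C (2 * C - 2 * D) * X ^ 3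
    + Polynomial.C (A - B + G) * X ^ 4
  have hp0 : p ≠ 0 := by
    intro h
    have : p.eval 0 = 0 := by rw [h]; simp
    apply h0
    rw [hq]; simp [p] at this ⊢; linarith
  have hdeg : p.natDegree ≤ 4 := by
    simp only [p]; compute_degree
  have heval : ∀ t ∈ Ioo (-Real.pi) Real.pi, q t = 0 → p.eval (Real.tan (t / 2)) = 0 := by
    intro t ht h
    have hc : 0 < Real.cos (t / 2) :=
      Real.cos_pos_of_mem_Ioo ⟨by linarith [ht.1], by linarith [ht.2]⟩
    have h2 : t = 2 * (t / 2) := by ring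
    have hcs := Real.sin_sq_add_cos_sq (t / 2)
    rw [hq] at h
    rw [h2, Real.cos_two_mul', Real.sin_two_mul] at h
    set c := Real.cos (t / 2) with hcdef
    set s := Real.sin (t / 2) with hsdef
    have htan : Real.tan (t / 2) = s / c := Real.tan_eq_sin_div_cos _
    rw [htan]
    have : c ^ 4 * p.eval (s / c) = 0 := by
      simp only [p, Polynomial.eval_add, Polynomial.eval_mul, Polynomial.eval_C,
        Polynomial.eval_X, Polynomial.eval_pow]
      have : c ^ 4 * (A + B + G + (2 * C + 2 * D) * (s / c) + (2 * A - 2 * G) * (s / c) ^ 2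
          + (2 * C - 2 * D) * (s / c) ^ 3 + (A - B + G) * (s / c) ^ 4)
          = (A + B + G) * c ^ 4 + (2 * C + 2 * D) * s * c ^ 3 + (2 * A - 2 * G) * s ^ 2 * c ^ 2
            + (2 * C - 2 * D) * s ^ 3 * c + (A - B + G) * s ^ 4 := by
        field_simp
      rw [this]
      have hone : (s ^ 2 + c ^ 2) = 1 := hcs
      have e1 : (A + B + G) * c ^ 4 + (2 * C + 2 * D) * s * c ^ 3 + (2 * A - 2 * G) * s ^ 2 * c ^ 2
            + (2 * C - 2 * D) * s ^ 3 * c + (A - B + G) * s ^ 4
          = A * (s ^ 2 + c ^ 2) ^ 2 + B * (c ^ 2 - s ^ 2) * (s ^ 2 + c ^ 2)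
            + C * (2 * s * c) * (s ^ 2 + c ^ 2) + D * (c ^ 2 - s ^ 2) * (2 * s * c)
            + G * (c ^ 2 - s ^ 2) ^ 2 := by ring
      rw [e1, hone]
      linarith
    rcases mul_eq_zero.1 this with h | h
    · exact absurd h (pow_ne_zero _ hc.ne')
    · exact h
  have hinj : InjOn (fun t : ℝ => Real.tan (t / 2)) {t | t ∈ Ioo (-Real.pi) Real.pi ∧ q t = 0} := by
    rintro x ⟨hx, _⟩ y ⟨hy, _⟩ hxy
    have := Real.injOn_tan (x₁ := x / 2) (x₂ := y / 2) ⟨by linarith [hx.1], by linarith [hx.2]⟩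
      ⟨by linarith [hy.1], by linarith [hy.2]⟩ hxy
    linarith
  rw [← hinj.encard_image]
  have hsub : (fun t : ℝ => Real.tan (t / 2)) '' {t | t ∈ Ioo (-Real.pi) Real.pi ∧ q t = 0}
      ⊆ (p.roots.toFinset : Set ℝ) := by
    rintro _ ⟨t, ⟨ht, h⟩, rfl⟩
    simp only [Finset.mem_coe, Multiset.mem_toFinset]
    rw [Polynomial.mem_roots hp0]
    exact heval t ht h
  calc _ ≤ ((p.roots.toFinset : Finset ℝ) : Set ℝ).encard := encard_le_encard hsub
    _ = (p.roots.toFinset.card : ℕ∞) := Set.encard_coe_eq_coe_finsetCard _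
    _ ≤ 4 := by
      have h1 : p.roots.toFinset.card ≤ 4 :=
        (Multiset.toFinset_card_le _).trans ((Polynomial.card_roots' p).trans hdeg)
      exact_mod_cast h1

end Pool.Agent.K3h58.MOID
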