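import Mathlib

/-!
# A circle and a confocal ellipse in space: definitions (helper58)
-/

set_option autoImplicit false

namespace Pool.Agent.K3h58.MOID

/-- Euclidean three-space. -/
abbrev E3 : Type := EuclideanSpace ℝ (Fin 3)

/-- The ellipse with focus `F`, semi-major axis `a` and eccentricity `e`, in the plane through `F`
spanned by the orthonormal vectors `u` (from the focus `F` towards the nearest vertex) and `v`,
parametrised by the eccentric anomaly `t`. For `e = 0` it is the circle with centre `F` and
radius `a`. -/
noncomputable def ellipse (F u v : E3) (a e t : ℝ) : E3 :=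
  F + (a * (Real.cos t - e)) • u + (a * √(1 - e ^ 2) * Real.sin t) • v

/-- The stationary points of the squared distance between the curves `P` and `Q`: the pairs of
points `(P s, Q t)` at which both partial derivatives of the squared distance vanish. -/
def stationary (P Q : ℝ → E3) : Set (E3 × E3) :=
  {z | ∃ s t : ℝ, z = (P s, Q t) ∧ deriv (fun s' => ‖P s' - Q t‖ ^ 2) s = 0 ∧
    deriv (fun t' => ‖P s - Q t'‖ ^ 2) t = 0}

end Pool.Agent.K3h58.MOID
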