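import Pool.Agent.K3h58.MOID.Core

/-!
# Derivatives and zeros (helper58)
-/

set_option autoImplicit false

namespace Pool.Agent.K3h58.MOID

open Set Real

namespace Par

variable (P : Par)

theorem hasDerivAt_r (t : ℝ) : HasDerivAt P.r (P.e * sin t) t := by
  have := ((hasDerivAt_cos t).const_mul P.e).const_sub 1
  refine this.congr_deriv ?_
  ring

theorem hasDerivAt_X (t : ℝ) : HasDerivAt P.X (P.X1 t) t := by
  have := ((((hasDerivAt_cos t).sub_const P.e).const_mul P.C)).sub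
    ((hasDerivAt_sin t).const_mul (P.S * P.b))
  refine this.congr_deriv ?_
  simp only [X1]; ring

theorem hasDerivAt_Y (t : ℝ) : HasDerivAt P.Y (P.Y1 t) t := by
  have := ((((hasDerivAt_cos t).sub_const P.e).const_mul P.S)).add
    ((hasDerivAt_sin t).const_mul (P.C * P.b))
  refine this.congr_deriv ?_
  simp only [Y1]; ring

theorem hasDerivAt_X1 (t : ℝ) :
    HasDerivAt P.X1 (- P.C * cos t + P.S * P.b * sin t) t := by
  have := ((hasDerivAt_sin t).const_mul (- P.C)).sub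
    ((hasDerivAt_cos t).const_mul (P.S * P.b))
  refine this.congr_deriv ?_
  ring

theorem hasDerivAt_Y1 (t : ℝ) : HasDerivAt P.Y1 (P.Y2 t) t := by
  have := ((hasDerivAt_sin t).const_mul (- P.S)).add
    ((hasDerivAt_cos t).const_mul (P.C * P.b))
  refine this.congr_deriv ?_
  simp only [Y2]; ring

theorem hasDerivAt_w (t : ℝ) : HasDerivAt P.w (2 * P.w1 t) t := by
  have := ((P.hasDerivAt_r t).pow 2).sub (((P.hasDerivAt_Y t).pow 2).const_mul P.m)
  refine this.congr_deriv ?_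
  simp only [w1]; push_cast; ring

theorem hasDerivAt_w1 (t : ℝ) : HasDerivAt P.w1 (P.w2 t) t := by
  have := (((hasDerivAt_sin t).const_mul P.e).mul (P.hasDerivAt_r t)).sub
    (((P.hasDerivAt_Y t).const_mul P.m).mul (P.hasDerivAt_Y1 t))
  refine this.congr_deriv ?_
  simp only [w2]; ring

theorem w_eq (t : ℝ) : P.w t = P.X t ^ 2 + (1 - P.m) * P.Y t ^ 2 := by
  simp only [w]; linear_combination - P.hX2 t

theorem w_pos (hm : P.m < 1) (t : ℝ) : 0 < P.w t := by
  have h1 := P.w_eq t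
  have h2 := P.hX2 t
  have h3 := P.r_pos t
  rw [h1]
  by_cases hY : P.Y t = 0
  · rw [hY] at h2 ⊢
    nlinarith
  · have : 0 < P.Y t ^ 2 := by positivity
    nlinarith [sq_nonneg (P.X t), mul_pos (sub_pos.2 hm) this]

theorem hasDerivAt_Θ (hm : P.m < 1) {t : ℝ} (ht : sin t ≠ 0) :
    HasDerivAt P.Θ (P.F t / (P.e * sin t ^ 2 * P.r t ^ 2 * P.w t * √(P.w t))) t := by
  have hw := P.w_pos hm t
  have hr := P.r_pos t
  have hs : 0 < √(P.w t) := sqrt_pos.2 hw
  have h1 := (P.hasDerivAt_w t).sqrt hw.ne'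
  have h2 := (P.hasDerivAt_w1 t).div h1 hs.ne'
  have h3 := ((hasDerivAt_sin t).const_mul P.e).mul (P.hasDerivAt_r t)
  have h4 := h2.div h3 (by have := P.he0; simp only [Pi.mul_apply]; positivity)
  refine h4.congr_deriv ?_
  simp only [Pi.mul_apply, Pi.div_apply]
  rw [← P.id1 t]
  have hsq : √(P.w t) ^ 2 = P.w t := sq_sqrt hw.le
  have he := P.he0.ne'
  field_simp
  simp only [hsq]
  ring

theorem hasDerivAt_F (t : ℝ) : HasDerivAt P.F
    ((1 - P.m) * P.b ^ 2 * (3 * P.r t ^ 2 * (P.e * sin t) * sin t + P.r t ^ 3 * cos t)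
      + P.m * P.b * (- sin t * P.X t * P.Y t * P.w t + cos t * P.X1 t * P.Y t * P.w t
        + cos t * P.X t * P.Y1 t * P.w t + cos t * P.X t * P.Y t * (2 * P.w1 t))
      - ((- P.e * sin t) * sin t * P.w t ^ 2 + (1 + P.e * cos t) * cos t * P.w t ^ 2
        + (1 + P.e * cos t) * sin t * 2 * P.w t * (2 * P.w1 t))) t := by
  have h1 := (((P.hasDerivAt_r t).pow 3).const_mul ((1 - P.m) * P.b ^ 2)).mul (hasDerivAt_sin t)
  have h2 := (((((hasDerivAt_cos t).const_mul (P.m * P.b)).mul (P.hasDerivAt_X t)).mul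
    (P.hasDerivAt_Y t)).mul (P.hasDerivAt_w t))
  have h3 := ((((hasDerivAt_cos t).const_mul P.e).const_add 1).mul (hasDerivAt_sin t)).mul
    ((P.hasDerivAt_w t).pow 2)
  have := (h1.add h2).sub h3
  refine this.congr_deriv ?_
  simp only [Pi.mul_apply, Pi.pow_apply]
  push_cast
  ring

theorem hasDerivAt_G {t : ℝ} (ht : sin t ≠ 0) :
    HasDerivAt (fun t => P.F t / (P.r t ^ 3 * sin t ^ 3))
      (- 3 * P.m * P.w t * P.V t / (P.r t ^ 4 * sin t ^ 4)) t := by
  have hr := P.r_pos t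
  have h1 := (P.hasDerivAt_F t).div (((P.hasDerivAt_r t).pow 3).mul ((hasDerivAt_sin t).pow 3))
    (by simp only [Pi.mul_apply, Pi.pow_apply]; positivity)
  refine h1.congr_deriv ?_
  rw [← P.id2 t]
  simp only [Pi.mul_apply, Pi.pow_apply]
  push_cast
  field_simp

theorem hasDerivAt_W {t : ℝ} (ht : sin t ≠ 0) :
    HasDerivAt (fun t => P.V t / sin t ^ 5)
      (- 5 * P.S * P.C * P.b * cos t * P.r t ^ 3 / sin t ^ 6) t := by
  have hfun : (fun t => P.V t / sin t ^ 5) = fun t => (P.b * (2 * P.S * P.C * (1 / 2 - P.e ^ 2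
    + 5 / 2 * P.e ^ 2 * cos t ^ 2 - 5 / 2 * P.e * cos t ^ 3 + (P.e - P.e ^ 3 / 2) * cos t ^ 5)
    + (P.C ^ 2 - P.S ^ 2) * P.e * P.b * sin t ^ 5)) / sin t ^ 5 := by
    funext s; rw [P.id3 s]
  rw [hfun]
  have hc := hasDerivAt_cos t
  have hs := (hasDerivAt_sin t).pow 5
  have h1 := ((((((hc.pow 2).const_mul (5 / 2 * P.e ^ 2)).const_add (1 / 2 - P.e ^ 2)).sub
    ((hc.pow 3).const_mul (5 / 2 * P.e))).add ((hc.pow 5).const_mul (P.e - P.e ^ 3 / 2))).const_mul
    (2 * P.S * P.C)).add (hs.const_mul ((P.C ^ 2 - P.S ^ 2) * P.e * P.b))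
  have h2 := (h1.const_mul P.b).div hs (pow_ne_zero _ ht)
  refine h2.congr_deriv ?_
  simp only [Pi.pow_apply, Pi.add_apply, Pi.sub_apply, r]
  have hxy := hxy t
  push_cast
  field_simp
  linear_combination (P.b * cos t * P.e * P.S * P.C
    * (- 2 * P.e + 3 * cos t - cos t ^ 3 * (2 - P.e ^ 2))) * hxy

end Par
end Pool.Agent.K3h58.MOID
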