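import Pool.Agent.K3h58.MOID.Pairs
import Pool.Agent.K3h58.MOID.Defs

/-!
# A circle and a confocal ellipse in space (helper58)
-/

set_option autoImplicit false

namespace Pool.Agent.K3h58.MOID

open Set Real

theorem stationary_comp_neg (P Q : ℝ → E3) :
    stationary P Q ⊆ stationary P (fun t => Q (-t)) := by
  rintro z ⟨s, t, rfl, h1, h2⟩
  refine ⟨s, -t, by simp, by simpa using h1, ?_⟩
  have := deriv_comp_neg (fun t' => ‖P s - Q t'‖ ^ 2) (-t)
  simp only [neg_neg] at this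
  rw [this, h2, neg_zero]

theorem ellipse_neg (F u v : E3) (a e t : ℝ) :
    ellipse F u v a e (-t) = ellipse F u (-v) a e t := by
  simp only [ellipse, cos_neg, sin_neg, mul_neg, neg_smul, smul_neg]

theorem norm_sq_eq {F u₁ v₁ u₂ v₂ : E3} {p1 p2 q1 q2 : ℝ}
    (hu₁ : ‖u₁‖ = 1) (hv₁ : ‖v₁‖ = 1) (huv₁ : inner ℝ u₁ v₁ = 0)
    (hu₂ : ‖u₂‖ = 1) (hv₂ : ‖v₂‖ = 1) (huv₂ : inner ℝ u₂ v₂ = 0) :
    ‖(F + p1 • u₁ + p2 • v₁) - (F + q1 • u₂ + q2 • v₂)‖ ^ 2
      = p1 ^ 2 + p2 ^ 2 + (q1 ^ 2 + q2 ^ 2)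
        - 2 * (p1 * (q1 * inner ℝ u₁ u₂ + q2 * inner ℝ u₁ v₂)
          + p2 * (q1 * inner ℝ v₁ u₂ + q2 * inner ℝ v₁ v₂)) := by
  have h0 : (F + p1 • u₁ + p2 • v₁) - (F + q1 • u₂ + q2 • v₂)
      = (p1 • u₁ + p2 • v₁) - (q1 • u₂ + q2 • v₂) := by abel
  have hvu₁ : inner ℝ v₁ u₁ = 0 := by rw [real_inner_comm]; exact huv₁
  have hvu₂ : inner ℝ v₂ u₂ = 0 := by rw [real_inner_comm]; exact huv₂
  have s1 : inner ℝ u₁ u₁ = 1 := by rw [real_inner_self_eq_norm_sq, hu₁]; norm_num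
  have s2 : inner ℝ v₁ v₁ = 1 := by rw [real_inner_self_eq_norm_sq, hv₁]; norm_num
  have s3 : inner ℝ u₂ u₂ = 1 := by rw [real_inner_self_eq_norm_sq, hu₂]; norm_num
  have s4 : inner ℝ v₂ v₂ = 1 := by rw [real_inner_self_eq_norm_sq, hv₂]; norm_num
  rw [h0, ← real_inner_self_eq_norm_sq]
  simp only [inner_sub_left, inner_sub_right, inner_add_left, inner_add_right,
    real_inner_smul_left, real_inner_smul_right, s1, s2, s3, s4, huv₁, huv₂, hvu₁, hvu₂]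
  rw [real_inner_comm u₁ u₂, real_inner_comm u₁ v₂, real_inner_comm v₁ u₂, real_inner_comm v₁ v₂]
  ring

theorem main_aux {F u₁ v₁ u₂ v₂ : E3} {R a e : ℝ} (hR : 0 < R) (ha : 0 < a)
    (he0 : 0 < e) (he1 : e < 1)
    (hu₁ : ‖u₁‖ = 1) (hv₁ : ‖v₁‖ = 1) (huv₁ : inner ℝ u₁ v₁ = 0)
    (hu₂ : ‖u₂‖ = 1) (hv₂ : ‖v₂‖ = 1) (huv₂ : inner ℝ u₂ v₂ = 0)
    {ν1 ν2 : ℝ} (hν1 : 0 ≤ ν1) (hν2 : 0 ≤ ν2)
    (hc1 : (inner ℝ u₁ u₂ : ℝ) ^ 2 + (inner ℝ v₁ u₂) ^ 2 + ν1 ^ 2 = 1)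
    (hc2 : (inner ℝ u₁ v₂ : ℝ) ^ 2 + (inner ℝ v₁ v₂) ^ 2 + ν2 ^ 2 = 1)
    (hc12 : (inner ℝ u₁ u₂ : ℝ) * inner ℝ u₁ v₂ + inner ℝ v₁ u₂ * inner ℝ v₁ v₂ + ν1 * ν2 = 0) :
    (stationary (ellipse F u₁ v₁ R 0) (ellipse F u₂ v₂ a e)).encard ≤ 10 := by
  set g11 : ℝ := inner ℝ u₁ u₂ with hg11
  set g12 : ℝ := inner ℝ u₁ v₂ with hg12
  set g21 : ℝ := inner ℝ v₁ u₂ with hg21
  set g22 : ℝ := inner ℝ v₁ v₂ with hg22
  have hb0 : 0 < √(1 - e ^ 2) := sqrt_pos.2 (by nlinarith)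
  have hb2 : √(1 - e ^ 2) ^ 2 = 1 - e ^ 2 := sq_sqrt (by nlinarith)
  -- first: the planar count
  have hcrit : (crit e (√(1 - e ^ 2)) (R / a) g11 g12 g21 g22).encard ≤ 10 := by
    have hdet : (g11 * g22 - g21 * g12) ^ 2 = 1 - (ν1 ^ 2 + ν2 ^ 2) := by
      linear_combination (g12 ^ 2 + g22 ^ 2) * hc1 + (1 - ν1 ^ 2) * hc2
        - (g11 * g12 + g21 * g22 - ν1 * ν2) * hc12
    have hm1 : ν1 ^ 2 + ν2 ^ 2 ≤ 1 := by nlinarith [sq_nonneg (g11 * g22 - g21 * g12)]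
    have hm0 : 0 ≤ ν1 ^ 2 + ν2 ^ 2 := by positivity
    obtain ⟨κ, S, C, hS, hC, hSC, e1, e2⟩ : ∃ κ S C : ℝ, 0 ≤ S ∧ 0 ≤ C ∧ S ^ 2 + C ^ 2 = 1 ∧
        ν1 = κ * S ∧ ν2 = κ * C := by
      by_cases h : ν1 ^ 2 + ν2 ^ 2 = 0
      · have h1 : ν1 = 0 := by nlinarith
        have h2 : ν2 = 0 := by nlinarith
        exact ⟨0, 0, 1, le_refl _, zero_le_one, by norm_num, by rw [h1]; ring, by rw [h2]; ring⟩
      · have hpos : 0 < ν1 ^ 2 + ν2 ^ 2 := lt_of_le_of_ne hm0 (Ne.symm h)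
        have hs := sqrt_pos.2 hpos
        have hsq : √(ν1 ^ 2 + ν2 ^ 2) ^ 2 = ν1 ^ 2 + ν2 ^ 2 := sq_sqrt hpos.le
        refine ⟨√(ν1 ^ 2 + ν2 ^ 2), ν1 / √(ν1 ^ 2 + ν2 ^ 2), ν2 / √(ν1 ^ 2 + ν2 ^ 2),
          by positivity, by positivity, ?_, ?_, ?_⟩
        · rw [div_pow, div_pow, hsq]; field_simp
        · field_simp
        · field_simp
    let P : Par :=
      { e := e, b := √(1 - e ^ 2), m := ν1 ^ 2 + ν2 ^ 2, S := S, C := C, he0 := he0, he1 := he1,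
        hb0 := hb0, hb2 := hb2, hm0 := hm0, hm1 := hm1, hS0 := hS, hC0 := hC, hSC := hSC }
    have hκ : P.m = κ ^ 2 := by
      change ν1 ^ 2 + ν2 ^ 2 = κ ^ 2
      rw [e1, e2]; linear_combination κ ^ 2 * hSC
    have hρ : 0 < R / a := by positivity
    rcases hm1.lt_or_eq with hlt | heq
    · exact P.crit_le_gen hlt hρ hκ e1 e2 hc1 hc2 hc12
    · have hκ1 : κ ^ 2 = 1 := by rw [← hκ]; exact heq
      refine P.crit_le_one hρ ?_ ?_ ?_
      · change g11 ^ 2 + g21 ^ 2 + S ^ 2 = 1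
        rw [e1] at hc1
        linear_combination hc1 - S ^ 2 * hκ1
      · change g12 ^ 2 + g22 ^ 2 + C ^ 2 = 1
        rw [e2] at hc2
        linear_combination hc2 - C ^ 2 * hκ1
      · change g11 * g12 + g21 * g22 + S * C = 0
        rw [e1, e2] at hc12
        linear_combination hc12 - S * C * hκ1
  -- second: the stationary set is an image of the planar critical set
  set b := √(1 - e ^ 2) with hb
  have hb1 : √(1 - (0 : ℝ) ^ 2) = 1 := by norm_num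
  let Ψ : (ℝ × ℝ) × ℝ → E3 × E3 := fun q =>
    (F + (R * q.1.1) • u₁ + (R * q.1.2) • v₁, ellipse F u₂ v₂ a e q.2)
  have hsub : stationary (ellipse F u₁ v₁ R 0) (ellipse F u₂ v₂ a e)
      ⊆ Ψ '' (crit e b (R / a) g11 g12 g21 g22) := by
    rintro z ⟨s, t, rfl, h1, h2⟩
    have hdist : ∀ s' t' : ℝ, ‖ellipse F u₁ v₁ R 0 s' - ellipse F u₂ v₂ a e t'‖ ^ 2
        = (R * cos s') ^ 2 + (R * sin s') ^ 2 + ((a * (cos t' - e)) ^ 2 + (a * b * sin t') ^ 2)
          - 2 * (R * cos s' * (a * (cos t' - e) * g11 + a * b * sin t' * g12)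
            + R * sin s' * (a * (cos t' - e) * g21 + a * b * sin t' * g22)) := by
      intro s' t'
      have := norm_sq_eq (F := F) (p1 := R * (cos s' - 0)) (p2 := R * √(1 - (0 : ℝ) ^ 2) * sin s')
        (q1 := a * (cos t' - e)) (q2 := a * b * sin t') hu₁ hv₁ huv₁ hu₂ hv₂ huv₂
      rw [hb1, sub_zero, mul_one] at this
      simp only [ellipse, ← hb, hb1, sub_zero, mul_one]
      exact this
    have d1 : HasDerivAt (fun s' => ‖ellipse F u₁ v₁ R 0 s' - ellipse F u₂ v₂ a e t‖ ^ 2)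
        (2 * R * a * (sin s * (g11 * (cos t - e) + g12 * (b * sin t))
          - cos s * (g21 * (cos t - e) + g22 * (b * sin t)))) s := by
      simp only [hdist]
      have hc := (hasDerivAt_cos s).const_mul R
      have hs := (hasDerivAt_sin s).const_mul R
      have := (((hc.pow 2).add (hs.pow 2)).add_const
        ((a * (cos t - e)) ^ 2 + (a * b * sin t) ^ 2)).sub
        (((hc.mul_const (a * (cos t - e) * g11 + a * b * sin t * g12)).add
          (hs.mul_const (a * (cos t - e) * g21 + a * b * sin t * g22))).const_mul 2)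
      refine this.congr_deriv ?_
      push_cast; ring
    have d2 : HasDerivAt (fun t' => ‖ellipse F u₁ v₁ R 0 s - ellipse F u₂ v₂ a e t'‖ ^ 2)
        (2 * a ^ 2 * (e * sin t * (1 - e * cos t)) - 2 * R * a *
          (cos s * (- g11 * sin t + g12 * (b * cos t))
            + sin s * (- g21 * sin t + g22 * (b * cos t)))) t := by
      simp only [hdist]
      have hc := ((hasDerivAt_cos t).sub_const e).const_mul a
      have hs := (hasDerivAt_sin t).const_mul (a * b)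
      have := (((hc.pow 2).add (hs.pow 2)).const_add ((R * cos s) ^ 2 + (R * sin s) ^ 2)).sub
        (((((hc.mul_const g11).add (hs.mul_const g12)).const_mul (R * cos s)).add
          (((hc.mul_const g21).add (hs.mul_const g22)).const_mul (R * sin s))).const_mul 2)
      refine this.congr_deriv ?_
      push_cast
      linear_combination (2 * a ^ 2 * sin t * cos t) * hb2
    rw [d1.deriv] at h1
    rw [d2.deriv] at h2
    have hRa : 2 * R * a ≠ 0 := by positivity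
    have h1' := (mul_eq_zero.1 h1).resolve_left hRa
    -- normalise the eccentric anomaly
    set θ : ℝ := (t : Real.Angle).toReal with hθ
    have hcos : cos θ = cos t := by rw [hθ, Real.Angle.cos_toReal, Real.Angle.cos_coe]
    have hsin : sin θ = sin t := by rw [hθ, Real.Angle.sin_toReal, Real.Angle.sin_coe]
    refine ⟨((cos s, sin s), θ), ⟨cos_sq_add_sin_sq s, show θ ∈ Ioc (-π) π from
      Real.Angle.toReal_mem_Ioc (t : Real.Angle), ?_, ?_⟩, ?_⟩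
    · simp only [hcos, hsin]; linarith
    · simp only [hcos, hsin]
      field_simp
      have h3 : 2 * a ^ 2 * (e * sin t * (1 - e * cos t)) = 2 * a * (R *
          (cos s * (- g11 * sin t + g12 * (b * cos t))
            + sin s * (- g21 * sin t + g22 * (b * cos t)))) := by linarith
      have h4 : 2 * a ≠ 0 := by positivity
      apply mul_left_cancel₀ h4
      linarith
    · simp only [Ψ, ellipse, hcos, hsin, hb1, sub_zero, mul_one]
  exact (encard_le_encard hsub).trans ((encard_image_le _ _).trans hcrit)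

/-- **Main theorem.** -/
theorem stationary_circle_ellipse {F u₁ v₁ u₂ v₂ : E3} {R a e : ℝ} (hR : 0 < R) (ha : 0 < a)
    (he0 : 0 < e) (he1 : e < 1)
    (hu₁ : ‖u₁‖ = 1) (hv₁ : ‖v₁‖ = 1) (huv₁ : inner ℝ u₁ v₁ = 0)
    (hu₂ : ‖u₂‖ = 1) (hv₂ : ‖v₂‖ = 1) (huv₂ : inner ℝ u₂ v₂ = 0) :
    (stationary (ellipse F u₁ v₁ R 0) (ellipse F u₂ v₂ a e)).encard ≤ 10 := by
  obtain ⟨n1, n2, hn1, hn2, hn12⟩ : ∃ n1 n2 : ℝ,
      (inner ℝ u₁ u₂ : ℝ) ^ 2 + (inner ℝ v₁ u₂) ^ 2 + n1 ^ 2 = 1 ∧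
      (inner ℝ u₁ v₂ : ℝ) ^ 2 + (inner ℝ v₁ v₂) ^ 2 + n2 ^ 2 = 1 ∧
      (inner ℝ u₁ u₂ : ℝ) * inner ℝ u₁ v₂ + inner ℝ v₁ u₂ * inner ℝ v₁ v₂ + n1 * n2 = 0 := by
    have hon : Orthonormal ℝ (({0, 1} : Set (Fin 3)).domRestrict ![u₁, v₁, (0 : E3)]) := by
      rw [orthonormal_iff_ite]
      rintro ⟨i, hi⟩ ⟨j, hj⟩
      simp only [mem_insert_iff, mem_singleton_iff] at hi hj
      have hvu₁ : inner ℝ v₁ u₁ = 0 := by rw [real_inner_comm]; exact huv₁
      rcases hi with rfl | rfl <;> rcases hj with rfl | rfl <;>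
        simp [Set.domRestrict, hu₁, hv₁, huv₁, hvu₁]
    obtain ⟨B, hB⟩ := hon.exists_orthonormalBasis_extension_of_card_eq (by simp)
    have hB0 : B 0 = u₁ := by simpa using hB 0 (by simp)
    have hB1 : B 1 = v₁ := by simpa using hB 1 (by simp)
    have hsum : ∀ x y : E3, inner ℝ u₁ x * inner ℝ u₁ y + inner ℝ v₁ x * inner ℝ v₁ y
        + inner ℝ (B 2) x * inner ℝ (B 2) y = inner ℝ x y := by
      intro x y
      have := B.sum_inner_mul_inner x y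
      rw [Fin.sum_univ_three, hB0, hB1] at this
      rw [real_inner_comm x u₁, real_inner_comm x v₁, real_inner_comm x (B 2)]
      exact this
    refine ⟨inner ℝ (B 2) u₂, inner ℝ (B 2) v₂, ?_, ?_, ?_⟩
    · have := hsum u₂ u₂
      rw [real_inner_self_eq_norm_sq, hu₂] at this
      linarith
    · have := hsum v₂ v₂
      rw [real_inner_self_eq_norm_sq, hv₂] at this
      linarith
    · have := hsum u₂ v₂
      rw [huv₂] at this
      linarith
  rcases le_total 0 (n1 * n2) with h | h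
  · refine main_aux hR ha he0 he1 hu₁ hv₁ huv₁ hu₂ hv₂ huv₂ (abs_nonneg n1) (abs_nonneg n2) ?_ ?_ ?_
    · rw [sq_abs]; exact hn1
    · rw [sq_abs]; exact hn2
    · rw [← abs_mul, abs_of_nonneg h]; exact hn12
  · have key : (stationary (ellipse F u₁ v₁ R 0) (ellipse F u₂ (-v₂) a e)).encard ≤ 10 := by
      refine main_aux hR ha he0 he1 hu₁ hv₁ huv₁ hu₂ (by rw [norm_neg]; exact hv₂)
        (by rw [inner_neg_right, huv₂, neg_zero]) (abs_nonneg n1) (abs_nonneg n2) ?_ ?_ ?_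
      · rw [sq_abs]; exact hn1
      · rw [sq_abs, inner_neg_right, inner_neg_right, neg_sq, neg_sq]; exact hn2
      · rw [← abs_mul, abs_of_nonpos h, inner_neg_right, inner_neg_right]; linarith
    refine le_trans (encard_le_encard ?_) key
    have := stationary_comp_neg (ellipse F u₁ v₁ R 0) (ellipse F u₂ v₂ a e)
    simpa only [ellipse_neg] using this

end Pool.Agent.K3h58.MOID
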