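import Pool.Agent.K3h58.MOID.Zeros

/-!
# Counting the solutions of `|Θ| = τ` (helper58)
-/

set_option autoImplicit false

namespace Pool.Agent.K3h58.MOID

open Set Real

/-- In `(0, π)` a nontrivial affine function of the cosine vanishes at most once. -/
theorem affine_cos_zero {c0 c1 : ℝ} (h : c0 ≠ 0 ∨ c1 ≠ 0) :
    {t | t ∈ Ioo 0 π ∧ c0 + c1 * cos t = 0}.encard ≤ 1 := by
  rw [Set.encard_le_one_iff]
  rintro x y ⟨hx, hx'⟩ ⟨hy, hy'⟩
  have h1 : c1 ≠ 0 := by
    rintro rfl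
    rcases h with h | h
    · exact h (by linarith)
    · exact h rfl
  have h2 : cos x = cos y := by
    have : c1 * (cos x - cos y) = 0 := by linarith
    rcases mul_eq_zero.1 this with h | h
    · exact absurd h h1
    · linarith
  exact injOn_cos ⟨hx.1.le, hx.2.le⟩ ⟨hy.1.le, hy.2.le⟩ h2

/-- The set of solutions of `|g| = τ` in `(-π, 0)` for an even function `g`. -/
theorem even_level {g : ℝ → ℝ} (hg : ∀ t, g (-t) = g t) (τ : ℝ) :
    {t | t ∈ Ioo (-π) 0 ∧ |g t| = τ}.encard ≤ {t | t ∈ Ioo 0 π ∧ |g t| = τ}.encard := by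
  have h : {t | t ∈ Ioo (-π) 0 ∧ |g t| = τ} ⊆ (fun t => -t) '' {t | t ∈ Ioo 0 π ∧ |g t| = τ} := by
    rintro t ⟨h1, h2⟩
    exact ⟨-t, ⟨⟨by linarith [h1.2], by linarith [h1.1]⟩, by rw [hg]; exact h2⟩, by simp⟩
  exact (encard_le_encard h).trans (encard_image_le _ _)

theorem split_pi {p : ℝ → Prop} :
    {t | t ∈ Ioo 0 π ∧ p t}.encard + {t | t ∈ Ioo (-π) 0 ∧ p t}.encard
      ≤ {t | t ∈ Ioo (-π) π ∧ p t}.encard := by
  rw [← encard_union_eq]
  · apply encard_le_encard
    rintro t (⟨h1, h2⟩ | ⟨h1, h2⟩)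
    · exact ⟨⟨by linarith [h1.1, pi_pos], h1.2⟩, h2⟩
    · exact ⟨⟨h1.1, by linarith [h1.2, pi_pos]⟩, h2⟩
  · rw [Set.disjoint_left]
    rintro t ⟨h1, _⟩ ⟨h2, _⟩
    linarith [h1.1, h2.2]

theorem level_split {a b τ : ℝ} (hτ : 0 < τ) {g g' : ℝ → ℝ} {p q : ℝ → Prop}
    (hd : ∀ x ∈ Ioo a b, HasDerivAt g (g' x) x) (hp : ∀ x ∈ Ioo a b, g x = 0 → p x)
    (hq : ∀ x ∈ Ioo a b, g' x = 0 → q x) :
    {x | x ∈ Ioo a b ∧ |g x| = τ}.encard ≤
      {x | x ∈ Ioo a b ∧ p x}.encard + {x | x ∈ Ioo a b ∧ q x}.encard + 1 := by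
  refine (encard_level_le hτ hd).trans ?_
  gcongr
  refine le_trans (encard_le_encard ?_) (encard_union_le _ _)
  rintro x ⟨hx, h | h⟩
  · exact Or.inl ⟨hx, hp x hx h⟩
  · exact Or.inr ⟨hx, hq x hx h⟩

namespace Par

variable (P : Par)

theorem level_gen (hm1 : P.m < 1) {a b τ : ℝ} (hτ : 0 < τ)
    (hs : ∀ t ∈ Ioo a b, sin t ≠ 0) :
    {t | t ∈ Ioo a b ∧ |P.Θ t| = τ}.encard ≤ {t | t ∈ Ioo a b ∧ P.w1 t = 0}.encard
      + {t | t ∈ Ioo a b ∧ P.F t = 0}.encard + 1 := by
  refine level_split hτ (fun t ht => P.hasDerivAt_Θ hm1 (hs t ht)) ?_ ?_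
  · intro t ht h
    have h1 := P.he0.ne'
    have h2 := (P.r_pos t).ne'
    have h3 := (sqrt_pos.2 (P.w_pos hm1 t)).ne'
    have h4 := hs t ht
    by_contra hne
    exact (div_ne_zero (div_ne_zero hne h3) (mul_ne_zero (mul_ne_zero h1 h4) h2)) h
  · intro t ht h
    have h1 := P.he0.ne'
    have h2 := (P.r_pos t).ne'
    have h3 := (sqrt_pos.2 (P.w_pos hm1 t)).ne'
    have h4 := hs t ht
    have h5 := (P.w_pos hm1 t).ne'
    by_contra hne
    exact (div_ne_zero hne (by positivity)) h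

theorem w1_ends (t : ℝ) (ht : sin t = 0) :
    P.w1 t = - (P.m * P.S * P.C * P.b * (1 - P.e * cos t)) := by
  have h := hxy t
  rw [ht] at h
  have h' : cos t ^ 2 = 1 := by linarith
  simp only [w1, r, Y, Y1, ht]
  linear_combination (- P.m * P.S * P.C * P.b) * h'

/-- The main count for `m < 1`. -/
theorem count_gen (hm1 : P.m < 1) {τ : ℝ} (hτ : 0 < τ) :
    {t | t ∈ Ioo 0 π ∧ |P.Θ t| = τ}.encard + {t | t ∈ Ioo (-π) 0 ∧ |P.Θ t| = τ}.encard
      + (if P.w1 0 = 0 then 2 else 0) + (if P.w1 π = 0 then 2 else 0) ≤ 10 := by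
  have hp := P.level_gen hm1 (a := 0) (b := π) hτ (fun t ht => (sin_pos_of_mem ht).ne')
  have hn := P.level_gen hm1 (a := -π) (b := 0) hτ (fun t ht => (sin_neg_of_mem ht).ne)
  by_cases h0 : P.m * P.S * P.C = 0
  · -- even case
    have heven : ∀ t, P.Θ (-t) = P.Θ t := by
      intro t
      have hw : P.w (-t) = P.w t := by
        simp only [w, r, Y, sin_neg, cos_neg]
        linear_combination (4 * P.b * sin t * (cos t - P.e)) * h0
      have hw1 : P.w1 (-t) = - P.w1 t := by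
        simp only [w1, r, Y, Y1, sin_neg, cos_neg]
        linear_combination (2 * P.b * sin t ^ 2 - 2 * P.b * cos t * (cos t - P.e)) * h0
      simp only [Θ, hw, hw1, sin_neg]
      simp only [r, cos_neg]
      have : P.e * -sin t * (1 - P.e * cos t) = -(P.e * sin t * (1 - P.e * cos t)) := by ring
      rw [this, neg_div, neg_div_neg_eq]
    have hev := even_level heven τ
    have hw1 : {t | t ∈ Ioo 0 π ∧ P.w1 t = 0}.encard ≤ 1 := by
      have hc0 : P.e * (1 - P.m * P.S ^ 2) ≠ 0 := by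
        have h1 : P.S ^ 2 ≤ 1 := by nlinarith [P.hSC, sq_nonneg P.C]
        have h2 : P.m * P.S ^ 2 ≤ P.m * 1 := mul_le_mul_of_nonneg_left h1 P.hm0
        have h3 : 0 < 1 - P.m * P.S ^ 2 := by linarith
        exact (mul_pos P.he0 h3).ne'
      refine (encard_le_encard ?_).trans (affine_cos_zero (c0 := P.e * (1 - P.m * P.S ^ 2))
        (c1 := - P.e ^ 2 + P.m * P.S ^ 2 - P.m * P.C ^ 2 * P.b ^ 2) (Or.inl hc0))
      rintro t ⟨ht, h⟩
      refine ⟨ht, ?_⟩
      have h1 := (sin_pos_of_mem ht).ne'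
      have h2 : sin t * (P.e * (1 - P.m * P.S ^ 2)
          + (- P.e ^ 2 + P.m * P.S ^ 2 - P.m * P.C ^ 2 * P.b ^ 2) * cos t) = 0 := by
        rw [← h]
        simp only [w1, r, Y, Y1]
        linear_combination (P.b * (cos t * (cos t - P.e) - sin t ^ 2)) * h0
      exact (mul_eq_zero.1 h2).resolve_left h1
    have hF := P.F_zeros_pos hm1
    have hle : {t | t ∈ Ioo 0 π ∧ |P.Θ t| = τ}.encard ≤ 3 := by
      refine hp.trans ?_
      calc _ ≤ (1 : ℕ∞) + 1 + 1 := by gcongr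
        _ = 3 := by norm_num
    calc _ ≤ (3 : ℕ∞) + 3 + 2 + 2 := by
          gcongr
          · exact hev.trans hle
          · split_ifs <;> simp
          · split_ifs <;> simp
      _ = 10 := by norm_num
  · have hm : P.m ≠ 0 := fun h => h0 (by rw [h]; ring)
    have hS : P.S ≠ 0 := fun h => h0 (by rw [h]; ring)
    have hC : P.C ≠ 0 := fun h => h0 (by rw [h]; ring)
    have hm' : 0 < P.m := lt_of_le_of_ne P.hm0 hm.symm
    have hS' : 0 < P.S := lt_of_le_of_ne P.hS0 hS.symm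
    have hC' : 0 < P.C := lt_of_le_of_ne P.hC0 hC.symm
    have hb := P.hb0
    have e1 : P.w1 0 ≠ 0 := by
      rw [P.w1_ends 0 sin_zero, cos_zero]
      have : 0 < 1 - P.e * 1 := by linarith [P.he1]
      have : 0 < P.m * P.S * P.C * P.b * (1 - P.e * 1) := by positivity
      linarith
    have e2 : P.w1 π ≠ 0 := by
      rw [P.w1_ends π sin_pi, cos_pi]
      have : 0 < 1 - P.e * (-1) := by linarith [P.he0]
      have : 0 < P.m * P.S * P.C * P.b * (1 - P.e * (-1)) := by positivity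
      linarith
    rw [if_neg e1, if_neg e2, add_zero, add_zero]
    have hA := (split_pi (p := fun t => P.w1 t = 0)).trans (P.w1_zeros hm' hS' hC')
    have hF1 := P.F_zeros_pos hm1
    have hF2 := P.F_zeros_neg hm' hm1 hS' hC'
    calc _ ≤ ({t | t ∈ Ioo 0 π ∧ P.w1 t = 0}.encard + {t | t ∈ Ioo 0 π ∧ P.F t = 0}.encard + 1)
          + ({t | t ∈ Ioo (-π) 0 ∧ P.w1 t = 0}.encard
            + {t | t ∈ Ioo (-π) 0 ∧ P.F t = 0}.encard + 1) := by gcongr
      _ = ({t | t ∈ Ioo 0 π ∧ P.w1 t = 0}.encard + {t | t ∈ Ioo (-π) 0 ∧ P.w1 t = 0}.encard)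
          + ({t | t ∈ Ioo 0 π ∧ P.F t = 0}.encard
            + {t | t ∈ Ioo (-π) 0 ∧ P.F t = 0}.encard) + 2 := by ring
      _ ≤ (4 : ℕ∞) + (1 + 3) + 2 := by gcongr
      _ = 10 := by norm_num

/-- The level function for `m = 1`. -/
noncomputable def ΘX (t : ℝ) : ℝ := P.X1 t / (P.e * sin t * P.r t)

/-- Numerator of the derivative of `ΘX`. -/
noncomputable def ψ (t : ℝ) : ℝ :=
  P.S * P.b * (1 - P.e * cos t ^ 3) + P.C * P.e * sin t ^ 3

theorem hasDerivAt_ΘX {t : ℝ} (ht : sin t ≠ 0) :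
    HasDerivAt P.ΘX (P.ψ t / (P.e * sin t ^ 2 * P.r t ^ 2)) t := by
  have hr := P.r_pos t
  have he := P.he0
  have h3 := ((hasDerivAt_sin t).const_mul P.e).mul (P.hasDerivAt_r t)
  have h4 := (P.hasDerivAt_X1 t).div h3 (by simp only [Pi.mul_apply]; positivity)
  refine h4.congr_deriv ?_
  simp only [Pi.mul_apply]
  have hψ : (- P.C * cos t + P.S * P.b * sin t) * sin t * P.r t
      - P.X1 t * (cos t * P.r t + P.e * sin t ^ 2) = P.ψ t := by
    simp only [X1, r, ψ]
    linear_combination (P.S * P.b) * hxy t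
  rw [← hψ]
  field_simp

theorem hasDerivAt_ψ {t : ℝ} (ht : sin t ≠ 0) :
    HasDerivAt (fun t => P.ψ t / sin t ^ 3)
      (- 3 * P.S * P.b * cos t * P.r t / sin t ^ 4) t := by
  have h1 := (((((hasDerivAt_cos t).pow 3).const_mul P.e).const_sub 1).const_mul (P.S * P.b)).add
    (((hasDerivAt_sin t).pow 3).const_mul (P.C * P.e))
  have h2 := h1.div ((hasDerivAt_sin t).pow 3) (pow_ne_zero _ ht)
  refine h2.congr_deriv ?_
  simp only [Pi.pow_apply, Pi.add_apply, r]
  push_cast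
  field_simp
  linear_combination (P.S * P.b * cos t * (P.e * cos t)) * hxy t

theorem hasDerivAt_X1s {t : ℝ} (ht : sin t ≠ 0) :
    HasDerivAt (fun t => P.X1 t / sin t) (P.S * P.b / sin t ^ 2) t := by
  have h2 := (P.hasDerivAt_X1 t).div (hasDerivAt_sin t) ht
  refine h2.congr_deriv ?_
  simp only [X1]
  congr 1
  linear_combination (P.S * P.b) * hxy t

theorem X1_zeros (hS : 0 < P.S) {a b : ℝ} (hs : ∀ t ∈ Ioo a b, sin t ≠ 0) :
    {t | t ∈ Ioo a b ∧ P.X1 t = 0}.encard ≤ 1 := by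
  have h := encard_zeros_le (a := a) (b := b) (fun t ht => P.hasDerivAt_X1s (hs t ht))
  have h0 : {t | t ∈ Ioo a b ∧ P.S * P.b / sin t ^ 2 = 0} = ∅ := by
    ext t
    simp only [mem_ofPred_eq, mem_empty_iff_false, iff_false, not_and]
    intro ht h'
    have h1 := hs t ht
    have h2 := P.hb0
    have : 0 < P.S * P.b / sin t ^ 2 := by positivity
    linarith
  rw [h0, encard_empty, zero_add] at h
  refine le_trans (encard_le_encard ?_) h
  rintro t ⟨h1, h2⟩
  exact ⟨h1, by rw [h2, zero_div]⟩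

theorem ψ_zeros_neg (hS : 0 < P.S) : {t | t ∈ Ioo (-π) 0 ∧ P.ψ t = 0}.encard ≤ 2 := by
  have h := encard_zeros_le (a := -π) (b := 0) (fun t ht => P.hasDerivAt_ψ (sin_neg_of_mem ht).ne)
  have h2 : {t | t ∈ Ioo (-π) 0 ∧ - 3 * P.S * P.b * cos t * P.r t / sin t ^ 4 = 0}
      ⊆ {t | t ∈ Ioo (-π) 0 ∧ cos t = 0} := by
    rintro t ⟨h1, h2⟩
    refine ⟨h1, ?_⟩
    by_contra hc
    have h3 := (sin_neg_of_mem h1).ne
    have h4 := (P.r_pos t).ne'
    have h5 := P.hb0.ne'
    have h6 := hS.ne'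
    apply (div_ne_zero ?_ (pow_ne_zero 4 h3)) h2
    have : (-3 : ℝ) ≠ 0 := by norm_num
    positivity
  calc _ ≤ {t | t ∈ Ioo (-π) 0 ∧ P.ψ t / sin t ^ 3 = 0}.encard := by
        apply encard_le_encard
        rintro t ⟨h1, h2⟩
        exact ⟨h1, by rw [h2, zero_div]⟩
    _ ≤ _ := h
    _ ≤ 1 + 1 := by gcongr; exact (encard_le_encard h2).trans cos_zero_neg
    _ = 2 := by norm_num

/-- The main count for `m = 1`, away from the zeros of `X`. -/
theorem count_X {τ : ℝ} (hτ : 0 < τ) :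
    {t | t ∈ Ioo 0 π ∧ |P.ΘX t| = τ}.encard + {t | t ∈ Ioo (-π) 0 ∧ |P.ΘX t| = τ}.encard
      + (if P.X1 0 = 0 then 2 else 0) + (if P.X1 π = 0 then 2 else 0) ≤ 6 := by
  have hg : ∀ a b : ℝ, (∀ t ∈ Ioo a b, sin t ≠ 0) →
      {t | t ∈ Ioo a b ∧ |P.ΘX t| = τ}.encard ≤ {t | t ∈ Ioo a b ∧ P.X1 t = 0}.encard
      + {t | t ∈ Ioo a b ∧ P.ψ t = 0}.encard + 1 := by
    intro a b hs
    refine level_split hτ (fun t ht => P.hasDerivAt_ΘX (hs t ht)) ?_ ?_
    · intro t ht h
      have h1 := P.he0.ne'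
      have h2 := (P.r_pos t).ne'
      have h4 := hs t ht
      by_contra hne
      exact (div_ne_zero hne (mul_ne_zero (mul_ne_zero h1 h4) h2)) h
    · intro t ht h
      have h1 := P.he0.ne'
      have h2 := (P.r_pos t).ne'
      have h4 := hs t ht
      by_contra hne
      exact (div_ne_zero hne (by positivity)) h
  rcases P.hS0.eq_or_lt with hS | hS
  · have hC : P.C = 1 := by
      have := P.hSC
      rw [← hS] at this
      have h0 := P.hC0
      nlinarith
    have heven : ∀ t, P.ΘX (-t) = P.ΘX t := by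
      intro t
      simp only [ΘX, X1, r, ← hS, sin_neg, cos_neg]
      have : P.e * -sin t * (1 - P.e * cos t) = -(P.e * sin t * (1 - P.e * cos t)) := by ring
      rw [this, div_neg, ← neg_div]
      congr 1; ring
    have hev := even_level heven τ
    have hle : {t | t ∈ Ioo 0 π ∧ |P.ΘX t| = τ}.encard ≤ 1 := by
      refine (encard_le_encard ?_).trans (affine_cos_zero (c0 := P.e * τ - 1)
        (c1 := - P.e ^ 2 * τ) (Or.inr ?_))
      · rintro t ⟨ht, h⟩
        refine ⟨ht, ?_⟩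
        have h1 := sin_pos_of_mem ht
        have h2 := P.r_pos t
        have he := P.he0
        have e1 : P.ΘX t = - (1 / (P.e * P.r t)) := by
          simp only [ΘX, X1, ← hS, hC]
          field_simp
          ring
        rw [e1, abs_neg, abs_of_pos (by positivity)] at h
        rw [← h]
        field_simp
        simp only [r]; ring
      · have := P.he0
        have h1 := hτ.ne'
        have h2 := this.ne'
        exact mul_ne_zero (neg_ne_zero.2 (pow_ne_zero 2 h2)) h1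
    calc _ ≤ (1 : ℕ∞) + 1 + 2 + 2 := by
          gcongr
          · exact hev.trans hle
          · split_ifs <;> simp
          · split_ifs <;> simp
      _ = 6 := by norm_num
  · have hb := P.hb0
    have e1 : P.X1 0 ≠ 0 := by
      simp only [X1, sin_zero, cos_zero]
      have : 0 < P.S * P.b := by positivity
      linarith
    have e2 : P.X1 π ≠ 0 := by
      simp only [X1, sin_pi, cos_pi]
      have : 0 < P.S * P.b := by positivity
      linarith
    rw [if_neg e1, if_neg e2, add_zero, add_zero]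
    have hp := hg 0 π (fun t ht => (sin_pos_of_mem ht).ne')
    have hn := hg (-π) 0 (fun t ht => (sin_neg_of_mem ht).ne)
    have hX1 := P.X1_zeros hS (a := 0) (b := π) (fun t ht => (sin_pos_of_mem ht).ne')
    have hX2 := P.X1_zeros hS (a := -π) (b := 0) (fun t ht => (sin_neg_of_mem ht).ne)
    have hψ1 : {t | t ∈ Ioo 0 π ∧ P.ψ t = 0} = ∅ := by
      ext t
      simp only [mem_ofPred_eq, mem_empty_iff_false, iff_false, not_and]
      intro ht h
      have h1 := sin_pos_of_mem ht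
      have h2 := P.hC0
      have h3 := P.he0
      have h4 : 0 < 1 - P.e * cos t ^ 3 := by
        have hc : cos t ^ 3 ≤ 1 := by
          have := cos_le_one t
          have h5 : cos t ^ 3 - 1 = (cos t - 1) * (cos t ^ 2 + cos t + 1) := by ring
          nlinarith [sq_nonneg (cos t + 1 / 2)]
        nlinarith [P.he1]
      simp only [ψ] at h
      have : 0 < P.S * P.b * (1 - P.e * cos t ^ 3) := by positivity
      have : 0 ≤ P.C * P.e * sin t ^ 3 := by positivity
      linarith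
    have hψ2 := P.ψ_zeros_neg hS
    rw [hψ1, encard_empty, add_zero] at hp
    calc _ ≤ ((1 : ℕ∞) + 1) + (1 + 2 + 1) := by
          gcongr
          · exact hp.trans (by gcongr)
          · exact hn.trans (by gcongr)
      _ = 6 := by norm_num

end Par
end Pool.Agent.K3h58.MOID
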