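import Pool.Agent.K3h58.MOID.Level

/-!
# Counting the pairs (direction, eccentric anomaly) (helper58)
-/

set_option autoImplicit false

namespace Pool.Agent.K3h58.MOID

open Set Real

theorem eq_of_cos_sin {s t : ℝ} (hs : s ∈ Ioc (-π) π) (ht : t ∈ Ioc (-π) π)
    (hc : cos s = cos t) (hsin : sin s = sin t) : s = t := by
  have h := Real.Angle.cos_sin_inj hc hsin
  have h1 := (Real.Angle.toReal_coe_eq_self_iff_mem_Ioc.2 hs)
  have h2 := (Real.Angle.toReal_coe_eq_self_iff_mem_Ioc.2 ht)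
  rw [← h1, ← h2, h]

/-- The set of critical pairs. -/
def crit (e b ρ g11 g12 g21 g22 : ℝ) : Set ((ℝ × ℝ) × ℝ) :=
  {q | q.1.1 ^ 2 + q.1.2 ^ 2 = 1 ∧ q.2 ∈ Ioc (-π) π ∧
    q.1.1 * (g21 * (cos q.2 - e) + g22 * (b * sin q.2))
      = q.1.2 * (g11 * (cos q.2 - e) + g12 * (b * sin q.2)) ∧
    e * sin q.2 * (1 - e * cos q.2)
      = ρ * (q.1.1 * (- g11 * sin q.2 + g12 * (b * cos q.2))
        + q.1.2 * (- g21 * sin q.2 + g22 * (b * cos q.2)))}

namespace Par

variable (P : Par)

theorem pairs_le {ρ : ℝ} (hρ : 0 < ρ) (d : ℝ → ℝ × ℝ) (k : ℝ → ℝ) (K : Set ((ℝ × ℝ) × ℝ))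
    (hK : ∀ q ∈ K, q.2 ∈ Ioc (-π) π ∧
      ((q.1 = d q.2 ∧ P.e * sin q.2 * P.r q.2 = ρ * k q.2) ∨
        (q.1 = - d q.2 ∧ P.e * sin q.2 * P.r q.2 = - (ρ * k q.2)))) :
    K.encard ≤ {t | t ∈ Ioo 0 π ∧ |k t / (P.e * sin t * P.r t)| = 1 / ρ}.encard
      + {t | t ∈ Ioo (-π) 0 ∧ |k t / (P.e * sin t * P.r t)| = 1 / ρ}.encard
      + (if k 0 = 0 then 2 else 0) + (if k π = 0 then 2 else 0) := by
  set A1 := {t | t ∈ Ioo 0 π ∧ |k t / (P.e * sin t * P.r t)| = 1 / ρ} with hA1
  set A2 := {t | t ∈ Ioo (-π) 0 ∧ |k t / (P.e * sin t * P.r t)| = 1 / ρ} with hA2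
  let f : ℝ → (ℝ × ℝ) × ℝ := fun t => ((P.e * sin t * P.r t / (ρ * k t)) • d t, t)
  let B : ℝ → Set ((ℝ × ℝ) × ℝ) := fun t => if k t = 0 then {(d t, t), (- d t, t)} else ∅
  have hB : ∀ t, (B t).encard ≤ if k t = 0 then 2 else 0 := by
    intro t
    simp only [B]
    split_ifs
    · refine (encard_insert_le _ _).trans ?_
      rw [encard_singleton]; norm_num
    · simp
  have hgen : ∀ q ∈ K, sin q.2 ≠ 0 →
      |k q.2 / (P.e * sin q.2 * P.r q.2)| = 1 / ρ ∧ f q.2 = q := by
    intro q hq hs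
    have he := P.he0.ne'
    have hr := (P.r_pos q.2).ne'
    have hL : P.e * sin q.2 * P.r q.2 ≠ 0 := by positivity
    obtain ⟨_, ⟨h1, h2⟩ | ⟨h1, h2⟩⟩ := hK q hq
    · have hk : k q.2 ≠ 0 := by
        intro h; rw [h, mul_zero] at h2; exact hL h2
      refine ⟨?_, ?_⟩
      · rw [h2]
        have : k q.2 / (ρ * k q.2) = 1 / ρ := by field_simp
        rw [this, abs_of_pos (by positivity)]
      · simp only [f]
        rw [h2, div_self (mul_ne_zero hρ.ne' hk), one_smul, ← h1]
    · have hk : k q.2 ≠ 0 := by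
        intro h; rw [h, mul_zero, neg_zero] at h2; exact hL h2
      refine ⟨?_, ?_⟩
      · rw [h2]
        have : k q.2 / -(ρ * k q.2) = - (1 / ρ) := by field_simp
        rw [this, abs_neg, abs_of_pos (by positivity)]
      · simp only [f]
        rw [h2, neg_div, div_self (mul_ne_zero hρ.ne' hk), neg_smul, one_smul, ← h1]
  have hends : ∀ q ∈ K, sin q.2 = 0 → q ∈ B q.2 := by
    intro q hq hs
    obtain ⟨_, h⟩ := hK q hq
    rw [hs, mul_zero, zero_mul] at h
    have hk : k q.2 = 0 := by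
      rcases h with ⟨_, h⟩ | ⟨_, h⟩
      · rcases mul_eq_zero.1 h.symm with h | h
        · exact absurd h hρ.ne'
        · exact h
      · rcases mul_eq_zero.1 (neg_eq_zero.1 h.symm) with h | h
        · exact absurd h hρ.ne'
        · exact h
    simp only [B, if_pos hk, mem_insert_iff, mem_singleton_iff]
    rcases h with ⟨h, _⟩ | ⟨h, _⟩
    · left; rw [← h]
    · right; rw [← h]
  have hsub : K ⊆ f '' A1 ∪ f '' A2 ∪ B 0 ∪ B π := by
    intro q hq
    obtain ⟨⟨h1, h2⟩, _⟩ := hK q hq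
    rcases h2.eq_or_lt with h2 | h2
    · right
      have := hends q hq (by rw [h2, sin_pi])
      rwa [h2] at this
    · rcases lt_trichotomy q.2 0 with h3 | h3 | h3
      · left; left; right
        have := hgen q hq (sin_neg_of_mem ⟨h1, h3⟩).ne
        exact ⟨q.2, ⟨⟨h1, h3⟩, this.1⟩, this.2⟩
      · left; right
        have := hends q hq (by rw [h3, sin_zero])
        rwa [h3] at this
      · left; left; left
        have := hgen q hq (sin_pos_of_mem ⟨h3, h2⟩).ne'
        exact ⟨q.2, ⟨⟨h3, h2⟩, this.1⟩, this.2⟩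
  calc K.encard ≤ _ := encard_le_encard hsub
    _ ≤ (f '' A1 ∪ f '' A2 ∪ B 0).encard + (B π).encard := encard_union_le _ _
    _ ≤ (f '' A1 ∪ f '' A2).encard + (B 0).encard + (B π).encard := by
        gcongr; exact encard_union_le _ _
    _ ≤ (f '' A1).encard + (f '' A2).encard + (B 0).encard + (B π).encard := by
        gcongr; exact encard_union_le _ _
    _ ≤ _ := by
        gcongr
        · exact encard_image_le _ _
        · exact encard_image_le _ _
        · exact hB 0
        · exact hB π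

/-- The count for `m < 1`. -/
theorem crit_le_gen (hm1 : P.m < 1) {ρ κ g11 g12 g21 g22 ν1 ν2 : ℝ} (hρ : 0 < ρ)
    (hκ : P.m = κ ^ 2) (hν1 : ν1 = κ * P.S) (hν2 : ν2 = κ * P.C)
    (hc1 : g11 ^ 2 + g21 ^ 2 + ν1 ^ 2 = 1) (hc2 : g12 ^ 2 + g22 ^ 2 + ν2 ^ 2 = 1)
    (hc12 : g11 * g12 + g21 * g22 + ν1 * ν2 = 0) :
    (crit P.e P.b ρ g11 g12 g21 g22).encard ≤ 10 := by
  subst hν1 hν2
  let z1 : ℝ → ℝ := fun t => g11 * (cos t - P.e) + g12 * (P.b * sin t)
  let z2 : ℝ → ℝ := fun t => g21 * (cos t - P.e) + g22 * (P.b * sin t)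
  have hz : ∀ t, z1 t ^ 2 + z2 t ^ 2 = P.w t := by
    intro t
    simp only [z1, z2, w, r, Y, hκ]
    linear_combination (cos t - P.e) ^ 2 * hc1 + (P.b * sin t) ^ 2 * hc2
      + 2 * (cos t - P.e) * (P.b * sin t) * hc12 + sin t ^ 2 * P.hb2 + (1 - P.e ^ 2) * hxy t
  have hz' : ∀ t, z1 t * (- g11 * sin t + g12 * (P.b * cos t))
      + z2 t * (- g21 * sin t + g22 * (P.b * cos t)) = P.w1 t := by
    intro t
    simp only [z1, z2, w1, r, Y, Y1, hκ]
    linear_combination (- (cos t - P.e) * sin t) * hc1 + (P.b ^ 2 * sin t * cos t) * hc2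
      + ((cos t - P.e) * (P.b * cos t) - P.b * sin t ^ 2) * hc12 + (sin t * cos t) * P.hb2
  have hcount := P.count_gen hm1 (τ := 1 / ρ) (by positivity)
  have hk : ∀ t, (P.w1 t / √(P.w t) = 0 ↔ P.w1 t = 0) := by
    intro t
    have := (sqrt_pos.2 (P.w_pos hm1 t)).ne'
    simp [div_eq_zero_iff, this]
  have := P.pairs_le hρ (fun t => (z1 t / √(P.w t), z2 t / √(P.w t)))
    (fun t => P.w1 t / √(P.w t)) (crit P.e P.b ρ g11 g12 g21 g22) ?_
  · refine this.trans ?_
    simp only [hk]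
    exact hcount
  · rintro ⟨⟨p1, p2⟩, t⟩ ⟨h1, h2, h3, h4⟩
    simp only at h1 h2 h3 h4 ⊢
    refine ⟨h2, ?_⟩
    have hw := P.w_pos hm1 t
    have hsq : √(P.w t) ^ 2 = P.w t := sq_sqrt hw.le
    have hs := sqrt_pos.2 hw
    set σ := √(P.w t) with hσ
    have h3' : p1 * z2 t = p2 * z1 t := h3
    have hdot : (p1 * z1 t + p2 * z2 t) ^ 2 = σ ^ 2 := by
      rw [hsq, ← hz t]
      linear_combination (z1 t ^ 2 + z2 t ^ 2) * h1 - (p1 * z2 t - p2 * z1 t) * h3'
    have e1 : p1 * σ ^ 2 = z1 t * (p1 * z1 t + p2 * z2 t) := by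
      rw [hsq, ← hz t]; linear_combination z2 t * h3'
    have e2 : p2 * σ ^ 2 = z2 t * (p1 * z1 t + p2 * z2 t) := by
      rw [hsq, ← hz t]; linear_combination - z1 t * h3'
    have e3 : (p1 * (- g11 * sin t + g12 * (P.b * cos t))
        + p2 * (- g21 * sin t + g22 * (P.b * cos t))) * σ ^ 2
        = P.w1 t * (p1 * z1 t + p2 * z2 t) := by
      rw [← hz' t]
      linear_combination (- g11 * sin t + g12 * (P.b * cos t)) * e1
        + (- g21 * sin t + g22 * (P.b * cos t)) * e2
    rcases sq_eq_sq_iff_eq_or_eq_neg.1 hdot with h | h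
    · left
      rw [h] at e1 e2 e3
      constructor
      · ext
        · simp only; rw [eq_div_iff hs.ne']
          apply mul_right_cancel₀ hs.ne'; linear_combination e1
        · simp only; rw [eq_div_iff hs.ne']
          apply mul_right_cancel₀ hs.ne'; linear_combination e2
      · simp only [r]
        rw [h4]
        congr 1
        rw [eq_div_iff hs.ne']
        apply mul_right_cancel₀ hs.ne'; linear_combination e3
    · right
      rw [h] at e1 e2 e3
      constructor
      · ext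
        · simp only [Prod.fst_neg]; rw [← neg_div, eq_div_iff hs.ne']
          apply mul_right_cancel₀ hs.ne'; linear_combination e1
        · simp only [Prod.snd_neg]; rw [← neg_div, eq_div_iff hs.ne']
          apply mul_right_cancel₀ hs.ne'; linear_combination e2
      · simp only [r]
        rw [h4, ← mul_neg]
        congr 1
        rw [← neg_div, eq_div_iff hs.ne']
        apply mul_right_cancel₀ hs.ne'; linear_combination e3

/-- The count for `m = 1`. -/
theorem crit_le_one {ρ g11 g12 g21 g22 : ℝ} (hρ : 0 < ρ)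
    (hc1 : g11 ^ 2 + g21 ^ 2 + P.S ^ 2 = 1) (hc2 : g12 ^ 2 + g22 ^ 2 + P.C ^ 2 = 1)
    (hc12 : g11 * g12 + g21 * g22 + P.S * P.C = 0) :
    (crit P.e P.b ρ g11 g12 g21 g22).encard ≤ 10 := by
  set g1 := g11 * P.C - g12 * P.S with hg1
  set g2 := g21 * P.C - g22 * P.S with hg2
  have hSC := P.hSC
  have hg : g1 ^ 2 + g2 ^ 2 = 1 := by
    rw [hg1, hg2]
    linear_combination P.C ^ 2 * hc1 + P.S ^ 2 * hc2 - 2 * P.S * P.C * hc12 + hSC
  have ha : (P.S * g11 + P.C * g12) ^ 2 + (P.S * g21 + P.C * g22) ^ 2 = 0 := by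
    linear_combination P.S ^ 2 * hc1 + P.C ^ 2 * hc2 + 2 * P.S * P.C * hc12
      - (P.S ^ 2 + P.C ^ 2) * hSC
  have k1 : P.S * g11 + P.C * g12 = 0 := by
    have h := sq_nonneg (P.S * g21 + P.C * g22)
    have h' := sq_nonneg (P.S * g11 + P.C * g12)
    exact pow_eq_zero_iff (two_ne_zero) |>.1 (le_antisymm (by linarith) h')
  have k2 : P.S * g21 + P.C * g22 = 0 := by
    have h := sq_nonneg (P.S * g21 + P.C * g22)
    have h' := sq_nonneg (P.S * g11 + P.C * g12)
    exact pow_eq_zero_iff (two_ne_zero) |>.1 (le_antisymm (by linarith) h)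
  have h11 : g11 = P.C * g1 := by rw [hg1]; linear_combination P.S * k1 - g11 * hSC
  have h21 : g21 = P.C * g2 := by rw [hg2]; linear_combination P.S * k2 - g21 * hSC
  have h12 : g12 = - P.S * g1 := by rw [hg1]; linear_combination P.C * k1 - g12 * hSC
  have h22 : g22 = - P.S * g2 := by rw [hg2]; linear_combination P.C * k2 - g22 * hSC
  clear_value g1 g2
  set K := crit P.e P.b ρ g11 g12 g21 g22 with hKdef
  have hfac : ∀ q ∈ K, q.1.1 ^ 2 + q.1.2 ^ 2 = 1 ∧ q.2 ∈ Ioc (-π) π ∧
      P.X q.2 * (q.1.1 * g2 - q.1.2 * g1) = 0 ∧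
      P.e * sin q.2 * P.r q.2 = ρ * (P.X1 q.2 * (q.1.1 * g1 + q.1.2 * g2)) := by
    rintro ⟨⟨p1, p2⟩, t⟩ ⟨q1, q2, q3, q4⟩
    simp only at q1 q2 q3 q4 ⊢
    refine ⟨q1, q2, ?_, ?_⟩
    · simp only [X]
      rw [h11, h12, h21, h22] at q3
      linear_combination q3
    · simp only [r, X1]
      rw [h11, h12, h21, h22] at q4
      linear_combination q4
  -- the part with `X ≠ 0`
  have hpart1 : {q | q ∈ K ∧ P.X q.2 ≠ 0}.encard ≤ 6 := by
    have := P.pairs_le hρ (fun _ => (g1, g2)) P.X1 {q | q ∈ K ∧ P.X q.2 ≠ 0} ?_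
    · exact this.trans (P.count_X (τ := 1 / ρ) (by positivity))
    · rintro ⟨⟨p1, p2⟩, t⟩ ⟨hq, hX⟩
      obtain ⟨q1, q2, q3, q4⟩ := hfac _ hq
      simp only at q1 q2 q3 q4 hX ⊢
      refine ⟨q2, ?_⟩
      have h0 : p1 * g2 - p2 * g1 = 0 := (mul_eq_zero.1 q3).resolve_left hX
      have h1 : (p1 * g1 + p2 * g2) ^ 2 = 1 ^ 2 := by
        linear_combination (g1 ^ 2 + g2 ^ 2) * q1 + hg - (p1 * g2 - p2 * g1) * h0
      rcases sq_eq_sq_iff_eq_or_eq_neg.1 h1 with h | h
      · left
        refine ⟨?_, ?_⟩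
        · ext
          · simp only; linear_combination g1 * h + g2 * h0 - p1 * hg
          · simp only; linear_combination g2 * h - g1 * h0 - p2 * hg
        · rw [q4, h, mul_one]
      · right
        refine ⟨?_, ?_⟩
        · ext
          · simp only [Prod.fst_neg]; linear_combination g1 * h + g2 * h0 - p1 * hg
          · simp only [Prod.snd_neg]; linear_combination g2 * h - g1 * h0 - p2 * hg
        · rw [q4, h]; ring
  have hpart2 : {q | q ∈ K ∧ P.X q.2 = 0}.encard ≤ 4 := by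
    classical
    let φ : (ℝ × ℝ) × ℝ → Bool × Bool :=
      fun q => (decide (0 < P.Y q.2), decide (0 < q.1.1 * g2 - q.1.2 * g1))
    have hinj : InjOn φ {q | q ∈ K ∧ P.X q.2 = 0} := by
      rintro ⟨⟨p1, p2⟩, t⟩ ⟨hq, hX⟩ ⟨⟨p1', p2'⟩, t'⟩ ⟨hq', hX'⟩ hφ
      obtain ⟨q1, q2, -, q4⟩ := hfac _ hq
      obtain ⟨q1', q2', -, q4'⟩ := hfac _ hq'
      simp only at q1 q2 q4 hX q1' q2' q4' hX'
      simp only [φ, Prod.mk.injEq, decide_eq_decide] at hφ
      obtain ⟨f1, f2⟩ := hφ
      have hr := P.r_pos t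
      have hr' := P.r_pos t'
      have hb := P.hb0
      -- the sign of Y
      have hYs : ∀ s, P.X s = 0 → P.Y s = P.r s ∨ P.Y s = - P.r s := by
        intro s hs
        have := P.hX2 s
        rw [hs] at this
        exact sq_eq_sq_iff_eq_or_eq_neg.1 (by linarith)
      have hσ : ∃ σ : ℝ, σ ^ 2 = 1 ∧ P.Y t = σ * P.r t ∧ P.Y t' = σ * P.r t' := by
        rcases hYs t hX with h | h <;> rcases hYs t' hX' with h' | h'
        · exact ⟨1, by norm_num, by rw [h, one_mul], by rw [h', one_mul]⟩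
        · exfalso
          have := f1.1 (by rw [h]; exact hr)
          rw [h'] at this; linarith
        · exfalso
          have := f1.2 (by rw [h']; exact hr')
          rw [h] at this; linarith
        · exact ⟨-1, by norm_num, by rw [h]; ring, by rw [h']; ring⟩
      obtain ⟨σ, hσ1, hσ2, hσ3⟩ := hσ
      have hx : ∀ s, P.X s = 0 → P.Y s = σ * P.r s →
          (σ + P.S * P.e) * cos s = P.S + σ * P.e ∧ P.C * P.r s = P.b * sin s * σ := by
        intro s hs hs'
        have e1 := P.hS s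
        have e2 := P.hC s
        rw [hs, hs'] at e1 e2
        have hrs := (P.r_pos s).ne'
        constructor
        · apply mul_right_cancel₀ hrs
          simp only [r] at e1 ⊢
          linear_combination - e1
        · apply mul_right_cancel₀ hrs
          linear_combination e2
      obtain ⟨x1, x2⟩ := hx t hX hσ2
      obtain ⟨x1', x2'⟩ := hx t' hX' hσ3
      have hne : σ + P.S * P.e ≠ 0 := by
        intro h
        have h1 : (P.S * P.e) ^ 2 = 1 := by
          have : P.S * P.e = - σ := by linarith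
          rw [this]; linarith [hσ1]
        have h2 : P.S ^ 2 ≤ 1 := by
          have := sq_nonneg P.C
          linarith
        have h3 : P.e ^ 2 < 1 := pow_lt_one₀ P.he0.le P.he1 two_ne_zero
        have h4 : P.S ^ 2 * P.e ^ 2 ≤ 1 * P.e ^ 2 :=
          mul_le_mul_of_nonneg_right h2 (sq_nonneg _)
        rw [mul_pow] at h1
        linarith
      have hcos : cos t = cos t' := mul_left_cancel₀ hne (x1.trans x1'.symm)
      have hσ0 : σ ≠ 0 := by
        intro h; rw [h] at hσ1; norm_num at hσ1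
      have hsin : sin t = sin t' := by
        have : P.r t = P.r t' := by simp only [r, hcos]
        rw [this] at x2
        have h3 : (P.b * σ) * sin t = (P.b * σ) * sin t' := by linarith
        exact mul_left_cancel₀ (mul_ne_zero hb.ne' hσ0) h3
      have htt : t = t' := eq_of_cos_sin q2 q2' hcos hsin
      subst htt
      -- the direction
      have hX1 : P.X1 t ≠ 0 := by
        intro h
        have := P.hX1 t
        rw [h, hX, hσ2] at this
        have : P.b * (σ * P.r t) = 0 := by linarith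
        exact (mul_ne_zero hb.ne' (mul_ne_zero hσ0 hr.ne')) this
      have hdot : p1 * g1 + p2 * g2 = p1' * g1 + p2' * g2 := by
        have : ρ * P.X1 t * (p1 * g1 + p2 * g2) = ρ * P.X1 t * (p1' * g1 + p2' * g2) := by
          linarith
        exact mul_left_cancel₀ (mul_ne_zero hρ.ne' hX1) this
      have hcr : (p1 * g2 - p2 * g1) ^ 2 = (p1' * g2 - p2' * g1) ^ 2 := by
        linear_combination (g1 ^ 2 + g2 ^ 2) * (q1 - q1')
          - (p1 * g1 + p2 * g2 + p1' * g1 + p2' * g2) * hdot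
      have hcr' : p1 * g2 - p2 * g1 = p1' * g2 - p2' * g1 := by
        rcases sq_eq_sq_iff_eq_or_eq_neg.1 hcr with h | h
        · exact h
        · rcases lt_trichotomy 0 (p1 * g2 - p2 * g1) with h3 | h3 | h3
          · have := f2.1 h3
            rw [h] at h3; linarith
          · rw [← h3] at h ⊢; linarith
          · exfalso
            have h4 : 0 < p1' * g2 - p2' * g1 := by linarith
            have := f2.2 h4
            linarith
      have hp1 : p1 = p1' := by
        linear_combination g1 * hdot + g2 * hcr' - (p1 - p1') * hg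
      have hp2 : p2 = p2' := by
        linear_combination g2 * hdot - g1 * hcr' - (p2 - p2') * hg
      rw [hp1, hp2]
    calc _ ≤ (univ : Set (Bool × Bool)).encard :=
          encard_le_encard_of_injOn (fun _ _ => mem_univ _) hinj
      _ = 4 := by
          rw [encard_univ]; simp
  have hsub : K ⊆ {q | q ∈ K ∧ P.X q.2 ≠ 0} ∪ {q | q ∈ K ∧ P.X q.2 = 0} := by
    intro q hq
    by_cases h : P.X q.2 = 0
    · right; exact ⟨hq, h⟩
    · left; exact ⟨hq, h⟩
  calc K.encard ≤ _ := encard_le_encard hsub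
    _ ≤ _ := encard_union_le _ _
    _ ≤ (6 : ℕ∞) + 4 := by gcongr
    _ = 10 := by norm_num

end Par
end Pool.Agent.K3h58.MOID
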