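import Pool.Agent.K3h58.MOID.Deriv

/-!
# Counting zeros (helper58)
-/

set_option autoImplicit false

namespace Pool.Agent.K3h58.MOID

open Set Real

namespace Par

variable (P : Par)

theorem F_neg (hm0 : 0 < P.m) (hm1 : P.m < 1) {t : ℝ} (hs : 0 < sin t) (hY : P.Y t ≤ 0) :
    P.F t < 0 := by
  have hw := P.w_pos hm1 t
  have hr := P.r_pos t
  have hwd : P.w t = P.r t ^ 2 - P.m * P.Y t ^ 2 := rfl
  rw [P.id4 t]
  set y := sin t
  have he := P.he0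
  have hb := P.hb0
  have hC := P.hC0
  have hκ : P.m * P.Y t ^ 2 < P.r t ^ 2 := by linarith
  have h4 : 0 < 4 * P.r t ^ 2 - P.m * P.Y t ^ 2 := by nlinarith [sq_nonneg (P.r t)]
  have hΦ : 0 < P.e ^ 2 * y ^ 2 * P.r t ^ 3 + P.m * P.r t ^ 3 * P.Y1 t ^ 2
      - P.m * P.e * y * P.Y t * P.Y1 t * (3 * P.r t ^ 2 - P.m * P.Y t ^ 2) := by
    have key : 4 * P.r t ^ 3 * P.m * (P.e ^ 2 * y ^ 2 * P.r t ^ 3 + P.m * P.r t ^ 3 * P.Y1 t ^ 2
      - P.m * P.e * y * P.Y t * P.Y1 t * (3 * P.r t ^ 2 - P.m * P.Y t ^ 2))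
      = (2 * P.m * P.r t ^ 3 * P.Y1 t - P.m * P.e * y * P.Y t * (3 * P.r t ^ 2 - P.m * P.Y t ^ 2)) ^ 2
        + P.m * P.e ^ 2 * y ^ 2 * (P.w t ^ 2 * (4 * P.r t ^ 2 - P.m * P.Y t ^ 2)) := by
      rw [hwd]; ring
    have hpos : 0 < P.m * P.e ^ 2 * y ^ 2 * (P.w t ^ 2 * (4 * P.r t ^ 2 - P.m * P.Y t ^ 2)) := by
      positivity
    have h5 : 0 < 4 * P.r t ^ 3 * P.m := by positivity
    refine (pos_iff_pos_of_mul_pos (b := P.e ^ 2 * y ^ 2 * P.r t ^ 3 + P.m * P.r t ^ 3 * P.Y1 t ^ 2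
      - P.m * P.e * y * P.Y t * P.Y1 t * (3 * P.r t ^ 2 - P.m * P.Y t ^ 2)) ?_).1 h5
    rw [key]
    positivity
  have h6 : 0 ≤ - (P.m * P.C * P.b * P.r t * P.Y t * P.w t) := by
    have : 0 ≤ P.m * P.C * P.b * P.r t * (- P.Y t) * P.w t := by
      have : 0 ≤ - P.Y t := by linarith
      positivity
    linarith
  have h7 := mul_pos hs hΦ
  nlinarith

theorem V_pos (hm0 : 0 < P.m) (hm1 : P.m < 1) {t : ℝ} (hs : 0 < sin t) (hF : P.F t = 0) :
    0 < P.V t := by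
  have hw := P.w_pos hm1 t
  have hr := P.r_pos t
  have hY : 0 < P.Y t := by
    by_contra h
    exact (P.F_neg hm0 hm1 hs (not_lt.1 h)).ne hF
  have he := P.he0
  have hb := P.hb0
  have hcos : 0 < 1 + P.e * cos t := by
    have := neg_one_le_cos t
    nlinarith [P.he1]
  have key : 0 ≤ P.b * cos t * P.X t + (1 + P.e * cos t) * sin t * P.Y t := by
    by_contra h
    push Not at h
    have hwd : P.w t = P.r t ^ 2 - P.m * P.Y t ^ 2 := rfl
    have hweq := P.w_eq t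
    simp only [F] at hF
    -- multiply by m Y w > 0
    have h1 : P.m * P.Y t * P.w t * (P.b * cos t * P.X t + (1 + P.e * cos t) * sin t * P.Y t) < 0 :=
      mul_neg_of_pos_of_neg (by positivity) h
    have h2 : 0 < sin t * P.r t ^ 2 * ((1 - P.m) * P.b ^ 2 * P.r t - (1 + P.e * cos t) * P.w t) := by
      have : sin t * P.r t ^ 2 * ((1 - P.m) * P.b ^ 2 * P.r t - (1 + P.e * cos t) * P.w t)
          = - (P.m * P.Y t * P.w t * (P.b * cos t * P.X t
            + (1 + P.e * cos t) * sin t * P.Y t)) := by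
        linear_combination hF + ((1 + P.e * cos t) * sin t * P.w t) * hwd
      rw [this]; linarith
    have h3 : 0 < (1 - P.m) * P.b ^ 2 * P.r t - (1 + P.e * cos t) * P.w t :=
      (pos_iff_pos_of_mul_pos h2).1 (by positivity)
    have h4 : (1 - P.m) * P.r t ^ 2 ≤ P.w t := by
      have := P.hX2 t
      nlinarith [mul_nonneg P.hm0 (sq_nonneg (P.X t))]
    have h5 : (1 + P.e * cos t) * P.r t = P.b ^ 2 + P.e ^ 2 * sin t ^ 2 := by
      simp only [r]; linear_combination - P.hb2 - P.e ^ 2 * hxy t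
    have h6 : (1 + P.e * cos t) * ((1 - P.m) * P.r t ^ 2) ≤ (1 + P.e * cos t) * P.w t :=
      mul_le_mul_of_nonneg_left h4 hcos.le
    have h7 : (1 + P.e * cos t) * ((1 - P.m) * P.r t ^ 2)
        = (1 - P.m) * P.b ^ 2 * P.r t + (1 - P.m) * P.r t * (P.e ^ 2 * sin t ^ 2) := by
      linear_combination (1 - P.m) * P.r t * h5
    have h8 : 0 ≤ (1 - P.m) * P.r t * (P.e ^ 2 * sin t ^ 2) := by
      have : 0 ≤ 1 - P.m := by linarith
      positivity
    linarith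
  have h1 : 0 < P.e * sin t ^ 3 * P.Y t ^ 2 := by positivity
  have h2 : 0 ≤ P.S * P.r t ^ 2 * (P.b * cos t * P.X t + (1 + P.e * cos t) * sin t * P.Y t) := by
    have := P.hS0
    positivity
  simp only [V]; linarith

theorem sin_neg_of_mem {t : ℝ} (ht : t ∈ Ioo (-π) 0) : sin t < 0 :=
  sin_neg_of_neg_of_neg_pi_lt ht.2 ht.1

theorem sin_pos_of_mem {t : ℝ} (ht : t ∈ Ioo 0 π) : 0 < sin t :=
  sin_pos_of_pos_of_lt_pi ht.1 ht.2

/-- At most one zero of `F` in `(0, π)`. -/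
theorem F_zeros_pos (hm1 : P.m < 1) : {t | t ∈ Ioo 0 π ∧ P.F t = 0}.encard ≤ 1 := by
  have hiff : ∀ t ∈ Ioo 0 π, (P.F t = 0 ↔ P.F t / (P.r t ^ 3 * sin t ^ 3) = 0) := by
    intro t ht
    have h1 := sin_pos_of_mem ht
    have h2 := P.r_pos t
    rw [div_eq_zero_iff]
    constructor
    · exact Or.inl
    · rintro (h | h)
      · exact h
      · exact absurd h (by positivity)
  have hset : {t | t ∈ Ioo 0 π ∧ P.F t = 0}
      = {t | t ∈ Ioo 0 π ∧ P.F t / (P.r t ^ 3 * sin t ^ 3) = 0} := by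
    ext t
    simp only [mem_ofPred_eq]
    constructor
    · rintro ⟨h1, h2⟩; exact ⟨h1, (hiff t h1).1 h2⟩
    · rintro ⟨h1, h2⟩; exact ⟨h1, (hiff t h1).2 h2⟩
  rcases P.hm0.eq_or_lt with hm | hm
  · have : {t | t ∈ Ioo 0 π ∧ P.F t = 0} = ∅ := by
      ext t
      simp only [mem_ofPred_eq, mem_empty_iff_false, iff_false, not_and]
      intro ht h
      have h1 := sin_pos_of_mem ht
      have h2 := P.r_pos t
      rw [P.id4 t, ← hm] at h
      have he := P.he0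
      have : 0 < P.e ^ 2 * P.r t ^ 3 * sin t ^ 3 := by positivity
      linarith
    rw [this]; simp
  · rw [hset]
    refine subsingleton_zeros (fun t ht => P.hasDerivAt_G (sin_pos_of_mem ht).ne') ?_
    intro t ht h
    have h1 := sin_pos_of_mem ht
    have h2 := P.r_pos t
    have h3 := P.w_pos hm1 t
    have h4 := P.V_pos hm hm1 h1 ((hiff t ht).2 h)
    have : 0 < 3 * P.m * P.w t * P.V t / (P.r t ^ 4 * sin t ^ 4) := by positivity
    have e1 : -3 * P.m * P.w t * P.V t / (P.r t ^ 4 * sin t ^ 4)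
      = - (3 * P.m * P.w t * P.V t / (P.r t ^ 4 * sin t ^ 4)) := by ring
    rw [e1]; linarith

/-- In `(-π, 0)` the cosine vanishes only once. -/
theorem cos_zero_neg : {t | t ∈ Ioo (-π) 0 ∧ cos t = 0}.encard ≤ 1 := by
  rw [Set.encard_le_one_iff]
  rintro x y ⟨hx, hx'⟩ ⟨hy, hy'⟩
  have h := injOn_cos (x₁ := -x) (x₂ := -y) ⟨by linarith [hx.2], by linarith [hx.1]⟩
    ⟨by linarith [hy.2], by linarith [hy.1]⟩ (by rw [cos_neg, cos_neg, hx', hy'])
  linarith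

/-- At most two zeros of `V` in `(-π, 0)`. -/
theorem V_zeros_neg (hS : 0 < P.S) (hC : 0 < P.C) :
    {t | t ∈ Ioo (-π) 0 ∧ P.V t = 0}.encard ≤ 2 := by
  have h := encard_zeros_le (a := -π) (b := 0) (g := fun t => P.V t / sin t ^ 5)
    (g' := fun t => - 5 * P.S * P.C * P.b * cos t * P.r t ^ 3 / sin t ^ 6)
    (fun t ht => P.hasDerivAt_W (sin_neg_of_mem ht).ne)
  have h1 : {t | t ∈ Ioo (-π) 0 ∧ P.V t = 0} ⊆ {t | t ∈ Ioo (-π) 0 ∧ P.V t / sin t ^ 5 = 0} := by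
    rintro t ⟨h1, h2⟩
    exact ⟨h1, by rw [h2, zero_div]⟩
  have h2 : {t | t ∈ Ioo (-π) 0 ∧ - 5 * P.S * P.C * P.b * cos t * P.r t ^ 3 / sin t ^ 6 = 0}
      ⊆ {t | t ∈ Ioo (-π) 0 ∧ cos t = 0} := by
    rintro t ⟨h1, h2⟩
    refine ⟨h1, ?_⟩
    by_contra hc
    have h3 := (sin_neg_of_mem h1).ne
    have h4 := (P.r_pos t).ne'
    have h5 := P.hb0.ne'
    have h6 := hS.ne'
    have h7 := hC.ne'
    apply (div_ne_zero ?_ (pow_ne_zero 6 h3)) h2
    have : (-5 : ℝ) ≠ 0 := by norm_num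
    positivity
  calc _ ≤ _ := encard_le_encard h1
    _ ≤ _ := h
    _ ≤ 1 + 1 := by gcongr; exact (encard_le_encard h2).trans cos_zero_neg
    _ = 2 := by norm_num

/-- At most three zeros of `F` in `(-π, 0)`. -/
theorem F_zeros_neg (hm0 : 0 < P.m) (hm1 : P.m < 1) (hS : 0 < P.S) (hC : 0 < P.C) :
    {t | t ∈ Ioo (-π) 0 ∧ P.F t = 0}.encard ≤ 3 := by
  have h := encard_zeros_le (a := -π) (b := 0) (g := fun t => P.F t / (P.r t ^ 3 * sin t ^ 3))
    (g' := fun t => - 3 * P.m * P.w t * P.V t / (P.r t ^ 4 * sin t ^ 4))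
    (fun t ht => P.hasDerivAt_G (sin_neg_of_mem ht).ne)
  have h1 : {t | t ∈ Ioo (-π) 0 ∧ P.F t = 0}
      ⊆ {t | t ∈ Ioo (-π) 0 ∧ P.F t / (P.r t ^ 3 * sin t ^ 3) = 0} := by
    rintro t ⟨h1, h2⟩
    exact ⟨h1, by rw [h2, zero_div]⟩
  have h2 : {t | t ∈ Ioo (-π) 0 ∧ - 3 * P.m * P.w t * P.V t / (P.r t ^ 4 * sin t ^ 4) = 0}
      ⊆ {t | t ∈ Ioo (-π) 0 ∧ P.V t = 0} := by
    rintro t ⟨h1, h2⟩
    refine ⟨h1, ?_⟩
    by_contra hc
    have h3 := (sin_neg_of_mem h1).ne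
    have h4 := (P.r_pos t).ne'
    have h5 := hm0.ne'
    have h6 := (P.w_pos hm1 t).ne'
    apply (div_ne_zero ?_ (mul_ne_zero (pow_ne_zero 4 h4) (pow_ne_zero 4 h3))) h2
    have : (-3 : ℝ) ≠ 0 := by norm_num
    positivity
  calc _ ≤ _ := encard_le_encard h1
    _ ≤ _ := h
    _ ≤ 2 + 1 := by gcongr; exact (encard_le_encard h2).trans (P.V_zeros_neg hS hC)
    _ = 3 := by norm_num

/-- At most four zeros of `w1` if `m S C ≠ 0`. -/
theorem w1_zeros (hm0 : 0 < P.m) (hS : 0 < P.S) (hC : 0 < P.C) :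
    {t | t ∈ Ioo (-π) π ∧ P.w1 t = 0}.encard ≤ 4 := by
  refine encard_trig_two (A := P.m * P.S * P.C * P.b) (B := P.m * P.S * P.C * P.b * P.e)
    (C := P.e * (1 - P.m * P.S ^ 2))
    (D := - P.e ^ 2 + P.m * P.S ^ 2 - P.m * P.C ^ 2 * P.b ^ 2) (G := - 2 * P.m * P.S * P.C * P.b)
    (fun t => ?_) ?_
  · simp only [w1, r, Y, Y1]
    linear_combination (P.C * P.S * P.b * P.m) * hxy t
  · simp only [w1, r, Y, Y1, sin_zero, cos_zero]
    have h1 := P.he1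
    have h2 : 0 < P.m * P.S * P.C * P.b * (1 - P.e) := by
      have := P.hb0
      have : 0 < 1 - P.e := by linarith
      positivity
    intro h
    nlinarith

end Par
end Pool.Agent.K3h58.MOID
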